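import Pool.Agent.H620R2.Gauge2.Defs
import Pool.Agent.J4H65.OP.Defs

/-!
# Optimal proof systems and hardness
-/

set_option autoImplicit false

namespace Pool.Agent.J4H65.OF

open Pool.Agent.H620R2.Gauge Pool.Agent.J4H65.OP

/-- `P` is an optimal proof system for `L` relative to `A`: it is a proof system, and its proofs are
at most polynomially longer than the ones of any other proof system. -/
def IsOptimal (A : Oracle) (L : Set (List Bool)) (P : List Bool → List Bool) : Prop :=
  IsProofSystem A L P ∧ ∀ Q, IsProofSystem A L Q →
    ∃ q : Polynomial ℕ, ∀ w, ∃ v, P v = Q w ∧ v.length ≤ q.eval w.length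

/-- `L` is hard for `coNP` relative to `A`: every `L'` in `coNP` relative to `A` is many-one
reducible to `L` in polynomial time relative to `A`. -/
def IsCoNPHard (A : Oracle) (L : Set (List Bool)) : Prop :=
  ∀ L' : Set (List Bool), IsNP A L'ᶜ →
    ∃ F : List Bool → List Bool, IsFP A F ∧ ∀ x, x ∈ L' ↔ F x ∈ L

end Pool.Agent.J4H65.OF
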