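import Pool.Agent.J4H65.OF.Meas
import Pool.Agent.J4H65.OF.SDefs
import Pool.Agent.J4H45.EXP.Main

/-!
# Finitely many changes of a random oracle
-/

set_option autoImplicit false

namespace Pool.Agent.J4H65.OF

open MeasureTheory Pool.Agent.NPC Pool.Agent.H620R2.Gauge Pool.Agent.H620R2.Gauge.CC
  Pool.Agent.J4H65.OP Pool.Agent.H660R2.NX

/-- the same algorithm for the other library -/
def toRO (M : Alg) : Pool.Agent.H628R3.RO.Alg := ⟨M.D, M.poly, M.p⟩

/-- and back -/
def ofRO (M : Pool.Agent.H628R3.RO.Alg) : Alg := ⟨M.D, M.poly, M.p⟩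

theorem run_toRO (M : Alg) (A : Oracle) (x : List Bool) : ∀ (n : ℕ) (a : List Bool),
    (toRO M).run A x n a = M.run A x n a
  | 0, _ => rfl
  | n + 1, a => by
    unfold Pool.Agent.H628R3.RO.Alg.run Alg.run
    show (match M.D (pairBits x a) with
      | [] => some []
      | true :: z => some z
      | false :: q => (toRO M).run A x n (a ++ [A q])) = _
    rcases M.D (pairBits x a) with _ | ⟨b, s⟩
    · rfl
    · cases b with
      | true => rfl
      | false => exact run_toRO M A x n _

theorem isFP_iff (A : Oracle) (F : List Bool → List Bool) :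
    IsFP A F ↔ Pool.Agent.H628R3.RO.IsFP A F := by
  constructor
  · rintro ⟨M, hM⟩
    refine ⟨toRO M, fun x => ?_⟩
    rw [← hM x]
    exact run_toRO M A x _ _
  · rintro ⟨M, hM⟩
    refine ⟨ofRO M, fun x => ?_⟩
    rw [← hM x]
    exact (run_toRO (ofRO M) A x _ _).symm

theorem np_of_np {A : Oracle} {L : Set (List Bool)} (h : Pool.Agent.H628R3.RO.IsNP A L) :
    IsNP A L := by
  obtain ⟨V, p, hV, hL⟩ := h
  rw [← isFP_iff] at hV
  have h0 : IsFP A (fun _ : List Bool => ([] : List Bool)) := IsFP.of_poly (NPC.Poly.const [])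
  have hw : NPC.Poly (fun y : List Bool × List Bool => (unpair y.1).1) :=
    (NPC.Poly.fst poly_unpair).comp (NPC.Poly.fst NPC.Poly.id)
  have hx : NPC.Poly (fun y : List Bool × List Bool => (unpair y.1).2) :=
    (NPC.Poly.snd poly_unpair).comp (NPC.Poly.fst NPC.Poly.id)
  have h1 := IsFP.seq (φ := fun p => pairBits (unpair p.1).2 (unpair p.1).1)
    (ψ := fun p => p.2.2) h0 hV (poly_pairBits hx hw)
    (NPC.Poly.snd (NPC.Poly.snd NPC.Poly.id))
  refine ⟨_, p, h1, fun x => (hL x).trans ?_⟩
  simp only [unpair_pairBits]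

theorem hard_of_hard {A : Oracle} {L : Set (List Bool)} (h : IsCoNPHard A L) :
    Pool.Agent.H628R3.RO.CoNPHardRel A L := by
  intro L' hL'
  obtain ⟨F, hF, h1⟩ := h L' (np_of_np hL')
  exact ⟨F, (isFP_iff A F).1 hF, h1⟩

theorem sys_iff (A : Oracle) (L : Set (List Bool)) (P : List Bool → List Bool) :
    IsProofSystem A L P ↔ Pool.Agent.H628R3.RO.IsProofSystem A L P := by
  unfold IsProofSystem Pool.Agent.H628R3.RO.IsProofSystem
  rw [isFP_iff]

theorem opt_of_opt {A : Oracle} {L : Set (List Bool)} {P : List Bool → List Bool}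
    (h : IsOptimal A L P) : Pool.Agent.H628R3.RO.IsOptimal A L P :=
  ⟨(sys_iff A L P).1 h.1, fun Q hQ => h.2 Q ((sys_iff A L Q).2 hQ)⟩

theorem ranO_eq : ranO = Pool.Agent.H628R3.RO.randomOracle := rfl

/-- relative to almost every oracle there are no optimal proof systems -/
theorem ae_none : ∀ᵐ A ∂ranO, ∀ L : Set (List Bool), IsCoNPHard A L → ¬ ∃ P, IsOptimal A L P := by
  rw [ranO_eq]
  filter_upwards [Pool.Agent.J4H45.EXP.main Pool.Agent.J4H45.OPT.embId] with A hA L hL
  rintro ⟨P, hP⟩
  exact Pool.Agent.J4H45.EXP.not_isOptimal (hA L (hard_of_hard hL)) ⟨P, opt_of_opt hP⟩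

/-- changes of finitely many bits -/
def flD (D : Finset (List Bool)) (B : Oracle) : Oracle := fun y => if y ∈ D then !B y else B y

theorem flD_pres (D : Finset (List Bool)) : MeasurePreserving (flD D) ranO ranO := by
  have hm : ∀ y : List Bool, Measurable (fun b : Bool => if y ∈ D then !b else b) :=
    fun y => measurable_of_finite _
  refine ⟨?_, ?_⟩
  · rw [measurable_pi_iff]
    intro y
    exact (hm y).comp (measurable_pi_apply y)
  · have h1 := Measure.infinitePi_map_pi (μ := fun _ : List Bool => coinM)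
      (f := fun y (b : Bool) => if y ∈ D then !b else b) hm
    have h2 : (fun y : List Bool => coinM.map (fun b : Bool => if y ∈ D then !b else b)) =
        fun _ => coinM := by
      funext y
      by_cases h : y ∈ D
      · simp only [if_pos h]
        exact coin_not
      · simp only [if_neg h]
        exact Measure.map_id
    have h3 : ranO.map (flD D) =
        Measure.infinitePi (fun y : List Bool => coinM.map
          (fun b : Bool => if y ∈ D then !b else b)) := h1
    rw [h3]
    unfold ranO
    congr 1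

/-- finitely many changes do not help -/
theorem sharp : ∀ᵐ B ∂ranO, ∀ A : Oracle, {y | A y ≠ B y}.Finite → ∀ L : Set (List Bool),
    IsCoNPHard A L → ¬ ∃ P, IsOptimal A L P := by
  have h1 : ∀ᵐ B ∂ranO, ∀ D : Finset (List Bool), ∀ L : Set (List Bool),
      IsCoNPHard (flD D B) L → ¬ ∃ P, IsOptimal (flD D B) L P := by
    rw [ae_all_iff]
    intro D
    exact (flD_pres D).quasiMeasurePreserving.ae ae_none
  filter_upwards [h1] with B hB A hfin
  have h2 : A = flD hfin.toFinset B := by
    funext y
    unfold flD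
    split_ifs with h
    · have h3 : A y ≠ B y := (Set.Finite.mem_toFinset hfin).1 h
      revert h3
      cases A y <;> cases B y <;> simp
    · have h3 : ¬ A y ≠ B y := fun h4 => h ((Set.Finite.mem_toFinset hfin).2 h4)
      exact not_not.1 h3
  rw [h2]
  exact hB _

end Pool.Agent.J4H65.OF
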