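import Pool.Agent.J4H65.OF.Law
import Pool.Agent.J4H65.OP.Count

/-!
# The number and the places of the changes
-/

set_option autoImplicit false

namespace Pool.Agent.J4H65.OF

open Pool.Agent.NPC Pool.Agent.H620R2.Gauge Pool.Agent.H620R2.Gauge.CC Filter
  Pool.Agent.J4H65.OP

theorem Fm_unique {e a : ℕ} {M : Oracle → Set (List Bool)} {b : Polynomial ℕ} {A : Oracle} {k : Bool} {q : List Bool}
    {n n' : ℕ} (h : Fm e M b a A k q n) (h' : Fm e M b a A k q n') : n = n' := by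
  rcases h with ⟨hk, h⟩ | ⟨hk, h⟩
  · rcases h' with ⟨_, h'⟩ | ⟨hk', _⟩
    · rw [h, h']
    · rw [hk] at hk'
      exact absurd hk' (by decide)
  · rcases h' with ⟨hk', _⟩ | ⟨_, h'⟩
    · rw [hk] at hk'
      exact absurd hk' (by decide)
    · rcases lt_trichotomy n n' with hl | hl | hl
      · exact absurd (h'.2.2.2 n hl h.1 h.2.1) h.2.2.1
      · exact hl
      · exact absurd (h.2.2.2 n' hl h'.1 h'.2.1) h'.2.2.1

/-- the scale of the activation -/
def ac (thr : ℕ → ℕ) (e : ℕ) (q : List Bool) : ℕ := nxt (stp 1 e q) (thr (Nat.pair e (idx q)))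

theorem scale_ac (thr : ℕ → ℕ) (e : ℕ) (q : List Bool) : Scale 1 e q (ac thr e q) :=
  scale_nxt _ _ _ _

variable (thr : ℕ → ℕ) (g : ℕ → Oracle → Set (List Bool)) (b : ℕ → Polynomial ℕ)

/-- where the oracles differ -/
theorem of_mem_dif {B : Oracle} {N i : ℕ} (hi : i ∈ dif (Fi (ac thr) g b B) B N) :
    ∃ (k : Bool) (e : ℕ) (q : List Bool) (n : ℕ),
      i = idx (cod (Rb b) e (k :: q)
        (syn (wd q n) (fun v => B (cod (Rb b) e (k :: q) v n))) n) ∧
      Fm e (g e) (b e) (ac thr e q) (Fi (ac thr) g b B) k q n ∧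
      Scale 1 e q n ∧ ac thr e q ≤ n ∧ 2 ^ n ≤ N := by
  obtain ⟨hiN, hne⟩ := mem_dif.1 hi
  have h1 : str i ∈ Tf (ac thr) g b B (Fi (ac thr) g b B) := by
    by_contra h
    exact hne (Fi_not _ _ _ _ _ h)
  obtain ⟨e, x, hx, k, q, n, hxe, hF⟩ := h1
  have hlen : n ≤ (str i).length := by
    have h1 := lt_length_code (Rb b) e x
    have h2 : (Rb b e).eval x.length = (b e).eval x.length + x.length := by
      simp [Rb]
    have h3 : n ≤ x.length := by
      rw [hxe]
      unfold ins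
      rw [Pool.Agent.H620R2.Gauge.length_pairBits, List.length_replicate]
      omega
    rw [hx]
    omega
  have h4 : 2 ^ (str i).length ≤ i + 1 := by
    have := le_idx (str i)
    rwa [idx_str] at this
  have h5 : 2 ^ n ≤ N := (Nat.pow_le_pow_right (by norm_num) hlen).trans (h4.trans hiN)
  refine ⟨k, e, q, n, ?_, hF, ?_, ?_, h5⟩
  · rw [← idx_str i, hx, hxe]
    rfl
  · rcases hF with ⟨_, h⟩ | ⟨_, _, h, _⟩
    · rw [h]
      exact scale_ac _ _ _
    · exact h
  · rcases hF with ⟨_, h⟩ | ⟨_, h, _⟩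
    · rw [h]
    · exact h

open Classical in
/-- the number of the changes -/
theorem card_dif_le {F : ℕ → ℝ} (hthr : ∀ κ N : ℕ, thr κ ≤ N → 2 * ((κ : ℝ) + 1) ≤ F N)
    (B : Oracle) (N : ℕ) : (dif (Fi (ac thr) g b B) B N).card ≤ 2 * ⌊F N / 2⌋₊ := by
  set A := Fi (ac thr) g b B with hA
  set nA : Bool → ℕ → List Bool → ℕ := fun k e q =>
    if h : ∃ n, Fm e (g e) (b e) (ac thr e q) A k q n then h.choose else 0 with hnA
  set S : Finset (Bool × ℕ) := Finset.univ ×ˢ Finset.range ⌊F N / 2⌋₊ with hS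
  have hcard : S.card = 2 * ⌊F N / 2⌋₊ := by
    rw [hS, Finset.card_product, Finset.card_range, Finset.card_univ, Fintype.card_bool]
  rw [← hcard]
  have hsub : dif A B N ⊆ S.image (fun t => idx (cod (Rb b) (Nat.unpair t.2).1
      (t.1 :: str (Nat.unpair t.2).2)
      (syn (wd (str (Nat.unpair t.2).2) (nA t.1 (Nat.unpair t.2).1 (str (Nat.unpair t.2).2)))
        (fun v => B (cod (Rb b) (Nat.unpair t.2).1 (t.1 :: str (Nat.unpair t.2).2) v
          (nA t.1 (Nat.unpair t.2).1 (str (Nat.unpair t.2).2)))))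
      (nA t.1 (Nat.unpair t.2).1 (str (Nat.unpair t.2).2)))) := by
    intro i hi
    obtain ⟨k, e, q, n, h1, hF, _, h2, h3⟩ := of_mem_dif thr g b hi
    have hn : nA k e q = n := by
      rw [hnA]
      simp only
      rw [dif_pos ⟨n, hF⟩]
      exact Fm_unique (Exists.choose_spec
        (⟨n, hF⟩ : ∃ n, Fm e (g e) (b e) (ac thr e q) A k q n)) hF
    rw [Finset.mem_image]
    refine ⟨(k, Nat.pair e (idx q)), ?_, ?_⟩
    · rw [hS, Finset.mem_product, Finset.mem_range]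
      refine ⟨Finset.mem_univ _, ?_⟩
      simp only
      have h4 : thr (Nat.pair e (idx q)) ≤ N := by
        calc thr (Nat.pair e (idx q)) ≤ ac thr e q := le_nxt (stp_pos 1 e q) _
          _ ≤ n := h2
          _ ≤ 2 ^ n := Nat.lt_two_pow_self.le
          _ ≤ N := h3
      have h5 := hthr _ _ h4
      have h6 : ((Nat.pair e (idx q) + 1 : ℕ) : ℝ) ≤ F N / 2 := by
        push_cast
        linarith
      have h7 := Nat.le_floor h6
      omega
    · simp only [Nat.unpair_pair, str_idx, hn]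
      exact h1.symm
  exact (Finset.card_le_card hsub).trans Finset.card_image_le

/-- the possible places of the changes -/
noncomputable def Sp (N : ℕ) : Finset ℕ :=
  ((Finset.univ : Finset Bool) ×ˢ (Finset.range (WN 1 N) ×ˢ (Finset.range (2 ^ WN 1 N) ×ˢ
    (Finset.range (2 ^ (2 * (KN N).size + 2 * WN 1 N)) ×ˢ Finset.range (KN N + 1))))).image
    (fun t => idx (cod (Rb b) t.2.1 (t.1 :: str t.2.2.1) t.2.2.2.1 (2 ^ (2 ^ t.2.2.2.2))))

theorem card_Sp_le (N : ℕ) : (Sp b N).card ≤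
    2 * (WN 1 N * (2 ^ WN 1 N * (2 ^ (2 * (KN N).size + 2 * WN 1 N) * (KN N + 1)))) := by
  unfold Sp
  refine Finset.card_image_le.trans (le_of_eq ?_)
  rw [Finset.card_product, Finset.card_product, Finset.card_product, Finset.card_product,
    Finset.card_range, Finset.card_range, Finset.card_range, Finset.card_range,
    Finset.card_univ, Fintype.card_bool]

theorem dif_sub (B : Oracle) (N : ℕ) : dif (Fi (ac thr) g b B) B N ⊆ Sp b N := by
  intro i hi
  obtain ⟨k, e, q, n, h1, _, ⟨j, hj, hnj⟩, _, h5⟩ := of_mem_dif thr g b hi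
  have h6 : n ≤ Nat.log 2 N := Nat.le_log_of_pow_le (by norm_num) h5
  rw [hnj] at h6
  have h7 : 2 ^ (stp 1 e q * j) ≤ Nat.log 2 (Nat.log 2 N) :=
    Nat.le_log_of_pow_le (by norm_num) h6
  have h8 : stp 1 e q * j ≤ KN N := Nat.le_log_of_pow_le (by norm_num) h7
  have h9 : stp 1 e q ≤ KN N := (Nat.le_mul_of_pos_right _ hj).trans h8
  have h10 : 2 ^ (1 * (e + q.length + 1)) ≤ Nat.log 2 (KN N) :=
    Nat.le_log_of_pow_le (by norm_num) h9
  have h11 : 1 * (e + q.length + 1) ≤ Nat.log 2 (Nat.log 2 (KN N)) :=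
    Nat.le_log_of_pow_le (by norm_num) h10
  have h12 : e + q.length + 1 ≤ WN 1 N := by
    unfold WN
    rw [Nat.div_one]
    omega
  have h13 : wd q n ≤ 2 * (KN N).size + 2 * WN 1 N := by
    unfold wd
    rw [hnj, lg_two_pow, lg_two_pow]
    have := Nat.size_le_size h8
    omega
  have h14 : idx q < 2 ^ WN 1 N := by
    have h15 := idx_lt q
    have h16 : 2 ^ (q.length + 1) ≤ 2 ^ WN 1 N := Nat.pow_le_pow_right (by norm_num) (by omega)
    omega
  have h17 : syn (wd q n) (fun v => B (cod (Rb b) e (k :: q) v n)) <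
      2 ^ (2 * (KN N).size + 2 * WN 1 N) :=
    (syn_lt _ _).trans_le (Nat.pow_le_pow_right (by norm_num) h13)
  unfold Sp
  rw [Finset.mem_image]
  refine ⟨(k, e, idx q, syn (wd q n) (fun v => B (cod (Rb b) e (k :: q) v n)), stp 1 e q * j),
    ?_, ?_⟩
  · rw [Finset.mem_product, Finset.mem_product, Finset.mem_product, Finset.mem_product,
      Finset.mem_range, Finset.mem_range, Finset.mem_range, Finset.mem_range]
    simp only
    exact ⟨Finset.mem_univ _, by omega, h14, h17, by omega⟩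
  · simp only
    rw [str_idx, ← hnj, ← h1]

theorem sizes_ev : ∀ᶠ N : ℕ in atTop, (WN 1 N : ℝ) ≤ l4 N ∧ ((KN N).size : ℝ) ≤ l4 N + 1 := by
  have hlog := Real.tendsto_logb_atTop (b := 2) (by norm_num)
  have t1 : Tendsto (fun N : ℕ => Real.logb 2 (N : ℝ)) atTop atTop :=
    hlog.comp tendsto_natCast_atTop_atTop
  have t2 := hlog.comp t1
  have t3 := hlog.comp t2
  filter_upwards [eventually_ge_atTop 1, t1.eventually_ge_atTop 1, t2.eventually_ge_atTop 1,
    t3.eventually_ge_atTop 1, tendsto_l4.eventually_ge_atTop 1]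
    with N h0 h1 h2 h3 h4
  simp only [Function.comp_apply] at h1 h2 h3
  have e1 : (Nat.log 2 N : ℝ) ≤ Real.logb 2 N := natlog_le le_rfl (by exact_mod_cast h0)
  have e2 := natlog_le e1 h1
  have e3 : (KN N : ℝ) ≤ Real.logb 2 (Real.logb 2 (Real.logb 2 N)) := natlog_le e2 h2
  have e4 : (Nat.log 2 (KN N) : ℝ) ≤ l4 N := natlog_le e3 h3
  constructor
  · have h5 : WN 1 N ≤ Nat.log 2 (KN N) := by
      unfold WN
      rw [Nat.div_one]
      exact Nat.log_le_self _ _
    exact (Nat.cast_le.2 h5).trans e4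
  · rcases Nat.eq_zero_or_pos (KN N) with h8 | h8
    · rw [h8]
      simp only [Nat.size_zero, Nat.cast_zero]
      linarith
    · have h9 : (KN N).size ≤ Nat.log 2 (KN N) + 1 := by
        rw [Nat.size_le]
        exact Nat.lt_pow_succ_log_self (by norm_num) _
      have h10 : ((KN N).size : ℝ) ≤ (Nat.log 2 (KN N) : ℝ) + 1 := by exact_mod_cast h9
      linarith

theorem log_Sp (N : ℕ) : Real.logb 2 (((Sp b N).card : ℝ) + 1) ≤
    2 + 4 * (WN 1 N : ℝ) + 3 * ((KN N).size : ℝ) := by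
  have h1 := card_Sp_le b N
  set W := WN 1 N
  set K := KN N
  have h2 : W ≤ 2 ^ W := Nat.lt_two_pow_self.le
  have h3 : K + 1 ≤ 2 ^ K.size := Nat.lt_size_self _
  have h4 : (Sp b N).card + 1 ≤ 2 ^ (2 + 4 * W + 3 * K.size) := by
    have h5 : 2 * (W * (2 ^ W * (2 ^ (2 * K.size + 2 * W) * (K + 1)))) ≤
        2 ^ (1 + 4 * W + 3 * K.size) := by
      calc 2 * (W * (2 ^ W * (2 ^ (2 * K.size + 2 * W) * (K + 1))))
          ≤ 2 * (2 ^ W * (2 ^ W * (2 ^ (2 * K.size + 2 * W) * 2 ^ K.size))) := by gcongr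
        _ = 2 ^ (1 + 4 * W + 3 * K.size) := by
          rw [← pow_add, ← pow_add, ← pow_add, ← pow_succ']
          congr 1
          ring
    have h6 : 2 ^ (2 + 4 * W + 3 * K.size) = 2 * 2 ^ (1 + 4 * W + 3 * K.size) := by
      rw [← pow_succ']
      congr 1
      ring
    have h7 : 0 < 2 ^ (1 + 4 * W + 3 * K.size) := by positivity
    omega
  rw [Real.logb_le_iff_le_rpow (by norm_num) (by positivity)]
  have h8 : (((Sp b N).card : ℝ) + 1) ≤ 2 ^ (2 + 4 * W + 3 * K.size) := by exact_mod_cast h4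
  refine h8.trans (le_of_eq ?_)
  rw [← Real.rpow_natCast]
  congr 1
  push_cast
  ring

theorem d_le {x : ℝ} (hx : 0 ≤ x) : ((2 * ⌊x / 2⌋₊ : ℕ) : ℝ) ≤ x := by
  have h1 := Nat.floor_le (show 0 ≤ x / 2 by positivity)
  push_cast
  linarith

/-- the comparison with a gauge -/
theorem cost {F h : ℕ → ℝ} (hF : Tendsto F atTop atTop)
    (hh : ∀ᶠ N : ℕ in atTop, 12 * F N * l4 N ≤ h N) :
    ∃ c : ℝ, ∀ N : ℕ, ((2 * ⌊F N / 2⌋₊ : ℕ) : ℝ) * Real.logb 2 (((Sp b N).card : ℝ) + 1) ≤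
      h N + c := by
  have hev : ∀ᶠ N : ℕ in atTop,
      ((2 * ⌊F N / 2⌋₊ : ℕ) : ℝ) * Real.logb 2 (((Sp b N).card : ℝ) + 1) ≤ h N := by
    filter_upwards [hh, sizes_ev, tendsto_l4.eventually_ge_atTop 1, hF.eventually_ge_atTop 0]
      with N h1 h2 h3 h4
    refine le_trans ?_ h1
    have h5 := log_Sp b N
    have h6 : Real.logb 2 (((Sp b N).card : ℝ) + 1) ≤ 12 * l4 N := by linarith
    have h7 := d_le h4
    have h8 : 0 ≤ Real.logb 2 (((Sp b N).card : ℝ) + 1) :=
      Real.logb_nonneg (by norm_num) (by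
        have : (0 : ℝ) ≤ ((Sp b N).card : ℝ) := Nat.cast_nonneg _
        linarith)
    calc ((2 * ⌊F N / 2⌋₊ : ℕ) : ℝ) * Real.logb 2 (((Sp b N).card : ℝ) + 1)
        ≤ F N * (12 * l4 N) := mul_le_mul h7 h6 h8 h4
      _ = 12 * F N * l4 N := by ring
  obtain ⟨N₀, hN₀⟩ := eventually_atTop.1 hev
  set X : ℕ → ℝ := fun N =>
    ((2 * ⌊F N / 2⌋₊ : ℕ) : ℝ) * Real.logb 2 (((Sp b N).card : ℝ) + 1) with hX
  refine ⟨∑ N ∈ Finset.range N₀, |X N - h N|, fun N => ?_⟩
  have h0 : 0 ≤ ∑ N ∈ Finset.range N₀, |X N - h N| :=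
    Finset.sum_nonneg fun _ _ => abs_nonneg _
  show X N ≤ _
  rcases lt_or_ge N N₀ with h1 | h1
  · have h2 : |X N - h N| ≤ ∑ N ∈ Finset.range N₀, |X N - h N| :=
      Finset.single_le_sum (f := fun N => |X N - h N|) (fun _ _ => abs_nonneg _)
        (Finset.mem_range.2 h1)
    have h3 := le_abs_self (X N - h N)
    linarith
  · have h2 := hN₀ N h1
    have h3 : X N ≤ h N := h2
    linarith

end Pool.Agent.J4H65.OF
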