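import Pool.Agent.H620R2.Gauge.M
import Pool.Agent.H620R2.Gauge2.Defs
import Pool.Agent.H529R3.Lev.Defs
import Pool.Agent.J4H65.OP.Defs

/-!
# Differences of oracles, and the properties of the oracles of the theorem
-/

set_option autoImplicit false

namespace Pool.Agent.J4H65.OF

open Pool.Agent.H620R2.Gauge Pool.Agent.J4H65.OP H529R3.Lev

/-- the numbers `i < N` such that `A` and `B` differ at the string number `i` -/
def dif (A B : Oracle) (N : ℕ) : Finset ℕ :=
  (Finset.range N).filter (fun i => A (str i) ≠ B (str i))

/-- `Λ` assigns to every oracle `A` a set `Λ A` of strings; it is local if, for some polynomial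
`b`, membership of `x` in `Λ A` depends only on the strings of length at most `b |x|` in `A`. (No
computability is required.) -/
def IsLocal (Λ : Oracle → Set (List Bool)) : Prop :=
  ∃ b : Polynomial ℕ, ∀ (A A' : Oracle) (x : List Bool),
    (∀ y : List Bool, y.length ≤ b.eval x.length → A y = A' y) → (x ∈ Λ A ↔ x ∈ Λ A')

/-- The oracle with the strings `000z`, where `z` is in `C`. -/
def cpy (C : Oracle) : Oracle
  | false :: false :: false :: z => C z
  | _ => false

/-- Relative to the oracle `A` all nonempty languages in `PSPACE` relative to `A`, and all nonempty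
sets among `Λ 0 A`, `Λ 1 A`, ..., have `p`-optimal proof systems. -/
def HasSystems (Λ : ℕ → Oracle → Set (List Bool)) (A : Oracle) : Prop :=
  (∀ L : Set (List Bool), L.Nonempty → IsPSPACE A L → ∃ P, IsPOptimal A L P) ∧
  ∀ e : ℕ, (Λ e A).Nonempty → ∃ P, IsPOptimal A (Λ e A) P

/-- No collapse relative to `A`:
* some language in `NP` relative to `A` is not in `coNP` relative to `A` with polynomial advice;
* some language in `NP` relative to `A`, all elements of which are of the form `1^(2^(2^n))`, is not
  in `coNP` relative to `A`;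
* for `i = 0, 1, 2, 3` some language in `SPACE(2_i^POL)` relative to `A` is not in the hierarchy over
  `TIME(2_i^POL)` relative to `A` with polynomial advice. -/
def NoCollapse (A : Oracle) : Prop :=
  (∃ L : Set (List Bool), IsNP A L ∧ ¬ WithAdvice (IsNP A) Lᶜ) ∧
  (∃ L : Set (List Bool), IsNP A L ∧ ¬ IsNP A Lᶜ ∧
    ∀ x ∈ L, ∃ n : ℕ, x = List.replicate (2 ^ (2 ^ n)) true) ∧
  ∀ i ≤ 3, ∃ L : Set (List Bool), IsSpace i A L ∧ ¬ IsTHpoly i A L

end Pool.Agent.J4H65.OF
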