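import Pool.Agent.J4H65.OF.Main

/-!
# Few changes of an arbitrary oracle (in a sparse copy)
-/

set_option autoImplicit false

namespace Pool.Agent.J4H65.OF

open Filter Pool.Agent.NPC Pool.Agent.H620R2.Gauge Pool.Agent.H620R2.Gauge.CC
  Pool.Agent.J4H65.OP

theorem cpy_code (C : Oracle) (b : ℕ → Polynomial ℕ) (e : ℕ) (x : List Bool) :
    cpy C (code (Rb b) e x) = false := by
  unfold code
  rcases e with _ | e
  · simp only [List.replicate_zero, List.nil_append]
    rcases hr : (Rb b 0).eval x.length with _ | r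
    · have h1 : (Rb b 0).eval x.length = (b 0).eval x.length + x.length := by
        simp [Rb]
      have h2 : x.length = 0 := by omega
      have h3 : x = [] := List.length_eq_zero_iff.1 h2
      rw [h3]
      rfl
    · rfl
  · rfl

theorem wd_pos {e : ℕ} {q : List Bool} {n : ℕ} (h : Scale 1 e q n) : 0 < wd q n := by
  obtain ⟨j, hj, rfl⟩ := h
  unfold wd
  rw [lg_two_pow, lg_two_pow]
  have h1 : 0 < (stp 1 e q * j).size := Nat.size_pos.2 (Nat.mul_pos (stp_pos _ _ _) hj)
  omega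

theorem no_mark (C : Oracle) (b : ℕ → Polynomial ℕ) {e : ℕ} {k : Bool} {q : List Bool} {n : ℕ}
    (h : Scale 1 e q n) : ¬ Mark (Rb b) e k q n (cpy C) := by
  intro hm
  have h1 := hm 0 (wd_pos h)
  have h2 : par (wd q n) 0 (fun v => cpy C (cod (Rb b) e (k :: q) v n)) = 0 := by
    unfold par
    refine Finset.sum_eq_zero fun v _ => ?_
    have h3 : cpy C (cod (Rb b) e (k :: q) v n) = false := cpy_code C b e _
    simp only [h3, Bool.and_false]
    exact if_neg Bool.false_ne_true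
  rw [h2] at h1
  exact absurd h1 (by decide)

theorem every (Λ : ℕ → Oracle → Set (List Bool)) (hΛ : ∀ e, IsLocal (Λ e)) (C : Oracle)
    (f : ℕ → ℕ) (hf : Tendsto f atTop atTop) :
    ∃ A : Oracle, (∀ N, (dif A (cpy C) N).card ≤ f N) ∧ HasSystems Λ A := by
  obtain ⟨gM, hgM⟩ := exists_enum
  choose bM hbM using fun e : ℕ => act_length (gM e).1 (gM e).2
  choose bΛ hbΛ using hΛ
  obtain ⟨thr, hthr⟩ := exists_thr ((tendsto_natCast_atTop_atTop (R := ℝ)).comp hf)
  set g := fam gM Λ with hg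
  set b := fab bM bΛ with hb
  have h1 : ∀ e : ℕ, {q : List Bool | ∃ k n, Scale 1 e q n ∧
      Mark (Rb b) e k q n (cpy C)}.Finite := by
    intro e
    refine Set.Finite.subset Set.finite_empty ?_
    rintro q ⟨k, n, hS, hm⟩
    exact absurd hm (no_mark C b hS)
  refine ⟨Fi (ac thr) g b (cpy C), fun N => ?_, fam_opt hgM hbM hbΛ thr (cpy C) h1⟩
  have h2 := card_dif_le thr g b hthr (cpy C) N
  refine h2.trans ?_
  have h3 : ((2 * ⌊((Nat.cast ∘ f) N : ℝ) / 2⌋₊ : ℕ) : ℝ) ≤ f N := d_le (Nat.cast_nonneg _)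
  exact_mod_cast h3

end Pool.Agent.J4H65.OF
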