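import Pool.Agent.J4H65.OF.Meas
import Pool.Agent.J4H65.OF.Defs

/-!
# Few changes at known places preserve null sets for gauges
-/

set_option autoImplicit false

namespace Pool.Agent.J4H65.OF

open MeasureTheory Pool.Agent.NPC Pool.Agent.H620R2.Gauge Pool.Agent.H620R2.Gauge.CC
  Pool.Agent.J4H65.OP

theorem mem_dif {A B : Oracle} {N i : ℕ} : i ∈ dif A B N ↔ i < N ∧ A (str i) ≠ B (str i) := by
  unfold dif
  rw [Finset.mem_filter, Finset.mem_range]

open Classical in
theorem law (S : ℕ → Finset ℕ) (d : ℕ → ℕ) (σ : List Bool) :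
    ranO {B | ∃ A, (∀ N, dif A B N ⊆ S N ∧ (dif A B N).card ≤ d N) ∧ Extends A σ} ≤
      ENNReal.ofReal
      (2 ^ ((d σ.length : ℝ) * Real.logb 2 (((S σ.length).card : ℝ) + 1) - σ.length)) := by
  set N := σ.length with hN
  set D : (Fin (d N) → Option (S N)) → ℕ → Prop := fun f i => ∃ j, ∃ h : i ∈ S N,
    f j = some ⟨i, h⟩ with hD
  set τ : (Fin (d N) → Option (S N)) → List Bool := fun f =>
    (List.range N).map (fun i => xor (σ.getD i false) (decide (D f i))) with hτ
  have hτl : ∀ f, (τ f).length = N := fun f => by simp [hτ]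
  have hsub : {B | ∃ A, (∀ N, dif A B N ⊆ S N ∧ (dif A B N).card ≤ d N) ∧ Extends A σ} ⊆
      ⋃ f : Fin (d N) → Option (S N), {B | Extends B (τ f)} := by
    rintro B ⟨A, hAB, hB⟩
    rw [Set.mem_iUnion]
    set l := (dif A B N).toList with hl
    have hlen : l.length ≤ d N := by
      rw [hl, Finset.length_toList]
      exact (hAB N).2
    have hmem : ∀ (j : ℕ) (h : j < l.length), l[j] ∈ S N := fun j h =>
      (hAB N).1 (Finset.mem_toList.1 (List.getElem_mem h))
    set f : Fin (d N) → Option (S N) := fun j =>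
      if h : j.1 < l.length then some ⟨l[j.1], hmem _ h⟩ else none with hf
    refine ⟨f, ?_⟩
    have hDf : ∀ i, D f i ↔ i ∈ dif A B N := by
      intro i
      constructor
      · rintro ⟨j, h, hj⟩
        rw [hf] at hj
        simp only at hj
        split_ifs at hj with h1
        rw [Option.some.injEq, Subtype.mk.injEq] at hj
        rw [← hj]
        exact Finset.mem_toList.1 (List.getElem_mem h1)
      · intro hi
        obtain ⟨j, hj, h1⟩ := List.getElem_of_mem (Finset.mem_toList.2 hi)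
        refine ⟨⟨j, lt_of_lt_of_le hj hlen⟩, (hAB N).1 hi, ?_⟩
        rw [hf]
        simp only
        rw [dif_pos hj, Option.some.injEq, Subtype.mk.injEq]
        exact h1
    intro i hi
    have hiN : i < N := by rwa [hτl] at hi
    have h1 : (τ f)[i] = xor (σ.getD i false) (decide (D f i)) := by
      simp [hτ]
    have h2 : σ.getD i false = A (str i) := by
      rw [hB i hiN, List.getD_eq_getElem _ _ hiN]
    rw [h1, h2, decide_eq_decide.2 (hDf i)]
    by_cases h3 : A (str i) = B (str i)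
    · rw [decide_eq_false (fun h => (mem_dif.1 h).2 h3), Bool.xor_false, h3]
    · rw [decide_eq_true (mem_dif.2 ⟨hiN, h3⟩), Bool.xor_true]
      revert h3
      cases A (str i) <;> cases B (str i) <;> simp
  have hone : ∀ f, ranO {B | Extends B (τ f)} ≤ ENNReal.ofReal (2 ^ (-(N : ℝ))) := by
    intro f
    have h1 := ranO_extends (fun B => B) ∅ (fun _ _ _ => rfl) (τ f)
    refine h1.trans (le_of_eq ?_)
    rw [hτl]
    simp
  have hcard : (((S N).card : ℝ) + 1) ^ (d N) =
      2 ^ ((d N : ℝ) * Real.logb 2 (((S N).card : ℝ) + 1)) := by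
    rw [mul_comm, Real.rpow_mul (by norm_num), Real.rpow_logb (by norm_num) (by norm_num)
      (by positivity), Real.rpow_natCast]
  calc ranO {B | ∃ A, (∀ N, dif A B N ⊆ S N ∧ (dif A B N).card ≤ d N) ∧ Extends A σ}
      ≤ ranO (⋃ f : Fin (d N) → Option (S N), {B | Extends B (τ f)}) := measure_mono hsub
    _ ≤ ∑' f : Fin (d N) → Option (S N), ranO {B | Extends B (τ f)} := measure_iUnion_le _
    _ = ∑ f : Fin (d N) → Option (S N), ranO {B | Extends B (τ f)} := tsum_fintype _
    _ ≤ ∑ f : Fin (d N) → Option (S N), ENNReal.ofReal (2 ^ (-(N : ℝ))) :=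
        Finset.sum_le_sum fun f _ => hone f
    _ = ENNReal.ofReal ((((S N).card : ℝ) + 1) ^ (d N) * 2 ^ (-(N : ℝ))) := by
        rw [Finset.sum_const, Finset.card_univ, nsmul_eq_mul,
          ENNReal.ofReal_mul (by positivity)]
        congr 1
        rw [Fintype.card_fun, Fintype.card_option, Fintype.card_coe, Fintype.card_fin,
          ENNReal.ofReal_pow (by positivity)]
        push_cast
        congr 1
        rw [ENNReal.ofReal_add (by positivity) (by norm_num), ENNReal.ofReal_natCast,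
          ENNReal.ofReal_one]
    _ = _ := by
        rw [hcard, ← Real.rpow_add (by norm_num), ← sub_eq_add_neg]

theorem null_law (S : ℕ → Finset ℕ) (d : ℕ → ℕ) (h : ℕ → ℝ) (c : ℝ)
    (hc : ∀ N, (d N : ℝ) * Real.logb 2 (((S N).card : ℝ) + 1) ≤ h N + c)
    (Y : Set Oracle) (hY : Null h Y) :
    ranO {B | ∃ A ∈ Y, ∀ N, dif A B N ⊆ S N ∧ (dif A B N).card ≤ d N} = 0 := by
  by_contra hne
  set G : Set Oracle := {B | ∃ A ∈ Y, ∀ N, dif A B N ⊆ S N ∧ (dif A B N).card ≤ d N} with hG
  have hg : 0 < (ranO G).toReal := ENNReal.toReal_pos hne (measure_ne_top _ _)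
  have hc0 : (0 : ℝ) < 2 ^ c := Real.rpow_pos_of_pos (by norm_num) _
  set g := (ranO G).toReal with hgdef
  set δ : ℝ := g / 2 / 2 ^ c with hδ
  have hδpos : 0 < δ := by positivity
  obtain ⟨C, hC, hsum⟩ := hY δ hδpos
  have h1 : G ⊆ ⋃ σ : C,
      {B | ∃ A, (∀ N, dif A B N ⊆ S N ∧ (dif A B N).card ≤ d N) ∧ Extends A σ.1} := by
    rintro B ⟨A, hA, hB⟩
    obtain ⟨σ, hσ, h⟩ := hC A hA
    exact Set.mem_iUnion.mpr ⟨⟨σ, hσ⟩, A, hB, h⟩
  have h2 : ranO G ≤ ENNReal.ofReal (2 ^ c * δ) := by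
    calc ranO G ≤ ranO (⋃ σ : C,
          {B | ∃ A, (∀ N, dif A B N ⊆ S N ∧ (dif A B N).card ≤ d N) ∧ Extends A σ.1}) :=
        measure_mono h1
      _ ≤ ∑' σ : C, ranO
          {B | ∃ A, (∀ N, dif A B N ⊆ S N ∧ (dif A B N).card ≤ d N) ∧ Extends A σ.1} :=
        measure_iUnion_le _
      _ ≤ ∑' σ : C, ENNReal.ofReal (2 ^ c) *
          ENNReal.ofReal (2 ^ (h σ.1.length - σ.1.length)) := by
        refine ENNReal.tsum_le_tsum (fun σ => (law S d σ.1).trans ?_)
        rw [← ENNReal.ofReal_mul hc0.le, ← Real.rpow_add (by norm_num)]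
        apply ENNReal.ofReal_le_ofReal
        apply Real.rpow_le_rpow_of_exponent_le (by norm_num)
        have := hc σ.1.length
        linarith
      _ = ENNReal.ofReal (2 ^ c) * ∑' σ : C,
          ENNReal.ofReal (2 ^ (h σ.1.length - σ.1.length)) := ENNReal.tsum_mul_left
      _ ≤ ENNReal.ofReal (2 ^ c) * ENNReal.ofReal δ := by gcongr
      _ = ENNReal.ofReal (2 ^ c * δ) := (ENNReal.ofReal_mul hc0.le).symm
  have h3 : 2 ^ c * δ = g / 2 := by
    rw [hδ]
    field_simp
  rw [h3] at h2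
  have h4 := ENNReal.toReal_mono ENNReal.ofReal_ne_top h2
  rw [ENNReal.toReal_ofReal (by positivity)] at h4
  linarith

end Pool.Agent.J4H65.OF
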