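import Pool.Agent.J4H65.OF.Tal2
import Pool.Agent.J4H65.OP.Count

/-!
# The oracles relative to which the test language is in `coNP`
-/

set_option autoImplicit false

namespace Pool.Agent.J4H65.OF

open Pool.Agent.NPC Pool.Agent.H620R2.Gauge Finset H568R2 Pool.Agent.H676 Pool.Agent.J4H65.OP
  Filter

/-- the oracles for which the algorithm decides the complement of the test language -/
def EasyT (θ : Par) : Set Oracle :=
  {A | ∃ V : List Bool → List Bool, (∀ x, θ.M.out A x = some (V x)) ∧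
    ∀ x, x ∈ (stL A)ᶜ ↔ Quant (θ.p.eval x.length) V 1 true x}

theorem mem_easyT {A : Oracle} (h : IsNP A (stL A)ᶜ) : ∃ θ, A ∈ EasyT θ := by
  obtain ⟨V, p, ⟨M, hM⟩, hV⟩ := h
  exact ⟨⟨M, p, 1, 0⟩, V, hM, hV⟩

theorem ev_of_easyT {θ : Par} {qb : Polynomial ℕ} (hqb : ∀ (A : Oracle) (x : List Bool),
    ∃ Q : Finset (List Bool), Q.card ≤ θ.M.p.eval x.length ∧
      (∀ q ∈ Q, q.length ≤ qb.eval x.length) ∧
      ∀ A' : Oracle, (∀ q ∈ Q, A' q = A q) → θ.M.out A' x = θ.M.out A x)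
    {s T N : ℕ} (hs : ∀ k : ℕ,
      (Pp θ.M qb θ.p).eval (2 ^ (2 ^ (s * (k + 1)))) < 2 ^ (2 ^ (s * (k + 2))))
    (hN : N = 2 ^ (2 ^ (2 ^ (s * (T + 1))))) {A : Oracle} (hA : A ∈ EasyT θ) :
    ∀ k < T, EvO θ.M θ.p s N k (pre N A) := by
  intro k hk
  obtain ⟨V, hM, hx⟩ := hA
  have h1 := hs k
  rw [eval_Pp] at h1
  have h2 : (xk s (k + 1)).length ≤ (xk s T).length := lk_mono (by omega)
  rw [length_xk, length_xk] at h2
  have h2' : 2 ^ (2 ^ (s * (k + 2))) ≤ 2 ^ (2 ^ (s * (T + 1))) := h2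
  have hlen := length_xk s k
  set m := 2 ^ (2 ^ (s * (k + 1))) with hm
  set ℓ := (Lp θ.p).eval m with hℓ
  have hV : ∀ y : List Bool, y.length ≤ ℓ →
      (V y = [true] ↔ leaf θ.M N y (pre N A) = true) := by
    intro y hy
    obtain ⟨Q, _, hQl, hQA⟩ := hqb A y
    have h3 : θ.M.out (orc N (pre N A)) y = θ.M.out A y := by
      apply hQA
      intro q hq
      apply orc_pre
      have h4 := idx_lt q
      have h5 : q.length ≤ qb.eval ℓ := (hQl q hq).trans (eval_mono _ hy)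
      have h6 : 2 ^ (q.length + 1) ≤ N := by
        rw [hN]
        exact Nat.pow_le_pow_right (by norm_num) (by omega)
      omega
    unfold leaf
    rw [h3, hM y, decide_eq_true_eq, Option.some.injEq]
  have hN' : 2 ^ (3 * (xk s k).length + 1) ≤ N + 1 := by
    rw [hlen, hN]
    exact (Nat.pow_le_pow_right (by norm_num) (by omega)).trans (Nat.le_succ _)
  have h3 := hx (xk s k)
  have h4 := quant_iff (m := θ.p.eval (xk s k).length) ℓ hV 1 true (xk s k) (by
    rw [hlen, hℓ, eval_Lp]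
    omega)
  unfold EvO
  have h5 : HitF (Wk s N k) (pre N A) ↔ xk s k ∈ hitLang A := hit_iff' hN' A
  rw [h5, ← h4, ← h3]
  unfold stL
  simp only [Set.mem_compl_iff, Set.mem_ofPred_eq, not_and]
  constructor
  · intro h6 h7
    exact h6 h7 ⟨_, rfl⟩
  · intro h6 h7
    exact absurd h7 h6

theorem l4_pow (x : ℕ) : l4 (2 ^ (2 ^ (2 ^ x))) = Real.logb 2 x := by
  unfold l4
  push_cast
  have h : ∀ m : ℕ, Real.logb 2 ((2 : ℝ) ^ m) = m := by
    intro m
    rw [Real.logb_pow]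
    simp
  have h1 := h (2 ^ (2 ^ x))
  have h2 := h (2 ^ x)
  have h3 := h x
  push_cast at h1 h2
  rw [h1, h2, h3]

theorem log_small (s : ℕ) (hs : 0 < s) : ∀ᶠ T : ℕ in atTop,
    (Real.logb 2 ((s * (T + 1) : ℕ) : ℝ)) ^ 3 ≤ (T : ℝ) / 12 := by
  have hl2 : 0 < Real.log 2 := Real.log_pos (by norm_num)
  have hs' : (0 : ℝ) < s := by exact_mod_cast hs
  have h1 := (Real.isLittleO_pow_log_id_atTop (n := 3)).def
    (show 0 < (Real.log 2) ^ 3 / (24 * s) by positivity)
  have t1 : Tendsto (fun T : ℕ => ((s * (T + 1) : ℕ) : ℝ)) atTop atTop := by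
    refine tendsto_natCast_atTop_atTop.comp (tendsto_atTop_mono (fun T => ?_) tendsto_id)
    calc T ≤ 1 * (T + 1) := by omega
      _ ≤ s * (T + 1) := Nat.mul_le_mul_right _ hs
  filter_upwards [t1.eventually h1, eventually_ge_atTop 1] with T h2 h3
  have hT : (1 : ℝ) ≤ T := by exact_mod_cast h3
  simp only [id_eq, Real.norm_eq_abs] at h2
  have h4 : (((s * (T + 1) : ℕ) : ℝ)) = s * (T + 1) := by push_cast; ring
  have h5 : (0 : ℝ) ≤ ((s * (T + 1) : ℕ) : ℝ) := Nat.cast_nonneg _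
  rw [abs_of_nonneg h5] at h2
  have h6 := (le_abs_self _).trans h2
  unfold Real.logb
  rw [div_pow, div_le_iff₀ (by positivity)]
  refine h6.trans ?_
  rw [h4]
  have h7 : (s : ℝ) * (T + 1) ≤ s * (2 * T) := by
    apply mul_le_mul_of_nonneg_left _ hs'.le
    linarith
  calc Real.log 2 ^ 3 / (24 * s) * (s * (T + 1)) ≤ Real.log 2 ^ 3 / (24 * s) * (s * (2 * T)) :=
        mul_le_mul_of_nonneg_left h7 (by positivity)
    _ = (T : ℝ) / 12 * Real.log 2 ^ 3 := by
      field_simp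
      ring

theorem exists_T {h : ℕ → ℝ} (hh : ∀ᶠ N : ℕ in atTop, h N ≤ (l4 N) ^ 3) (s : ℕ) (hs : 0 < s)
    (δ : ℝ) (hδ : 0 < δ) :
    ∃ T : ℕ, (7 / 8 : ℝ) ^ T * 2 ^ h (2 ^ (2 ^ (2 ^ (s * (T + 1))))) ≤ δ := by
  have hN : Tendsto (fun T : ℕ => 2 ^ (2 ^ (2 ^ (s * (T + 1))))) atTop atTop := by
    refine tendsto_atTop_mono (fun T => ?_) tendsto_id
    calc T ≤ s * (T + 1) := by
          calc T ≤ 1 * (T + 1) := by omega
            _ ≤ s * (T + 1) := Nat.mul_le_mul_right _ hs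
      _ ≤ 2 ^ (s * (T + 1)) := Nat.lt_two_pow_self.le
      _ ≤ 2 ^ (2 ^ (s * (T + 1))) := Nat.lt_two_pow_self.le
      _ ≤ 2 ^ (2 ^ (2 ^ (s * (T + 1)))) := Nat.lt_two_pow_self.le
  have hr : (7 / 8 : ℝ) * 2 ^ ((1 : ℝ) / 12) < 1 := by
    have h1 : (2 : ℝ) ^ ((1 : ℝ) / 12) < 8 / 7 := by
      have h2 : (2 : ℝ) < (8 / 7) ^ (12 : ℝ) := by
        have : ((12 : ℝ)) = ((12 : ℕ) : ℝ) := by norm_num
        rw [this, Real.rpow_natCast]
        norm_num
      calc (2 : ℝ) ^ ((1 : ℝ) / 12) < ((8 / 7) ^ (12 : ℝ)) ^ ((1 : ℝ) / 12) :=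
            Real.rpow_lt_rpow (by norm_num) h2 (by norm_num)
        _ = 8 / 7 := by
            rw [← Real.rpow_mul (by norm_num)]
            norm_num
    linarith
  have ht := tendsto_pow_atTop_nhds_zero_of_lt_one (r := (7 / 8 : ℝ) * 2 ^ ((1 : ℝ) / 12))
    (by positivity) hr
  obtain ⟨T, h1, h2, h3⟩ := ((ht.eventually (eventually_le_nhds hδ)).and
    ((hN.eventually hh).and (log_small s hs))).exists
  refine ⟨T, le_trans ?_ h1⟩
  rw [mul_pow]
  apply mul_le_mul_of_nonneg_left _ (by positivity)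
  rw [← Real.rpow_natCast (2 ^ ((1 : ℝ) / 12)) T, ← Real.rpow_mul (by norm_num)]
  apply Real.rpow_le_rpow_of_exponent_le (by norm_num)
  rw [l4_pow] at h2
  have h4 := h2.trans h3
  linarith

/-- the test language is not in `coNP` outside of a null set -/
theorem null_tally {h : ℕ → ℝ} (hh : ∀ᶠ N : ℕ in atTop, h N ≤ (l4 N) ^ 3) :
    Null h {A | IsNP A (stL A)ᶜ} := by
  refine (null_iUnion (f := h) EasyT fun θ => ?_).mono fun A hA => ?_
  · intro δ hδ
    obtain ⟨qb, hqb⟩ := Alg.out_local θ.M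
    obtain ⟨s, hs, hs2⟩ := choose_s (Pp θ.M qb θ.p)
    obtain ⟨T, hT⟩ := exists_T hh s hs δ hδ
    refine cover_of_event (N := 2 ^ (2 ^ (2 ^ (s * (T + 1)))))
      (fun a => ∀ k < T, EvO θ.M θ.p s _ k a) (EasyT θ)
      (fun A hA => ev_of_easyT hqb (fun k => (hs2 k).1) rfl hA) h δ ?_
    have hev := ev_bound' hqb (T := T) hs2 rfl
    refine le_trans ?_ hT
    refine mul_le_mul_of_nonneg_right (le_trans (le_of_eq ?_) hev) (by positivity)
    congr 1
    funext a
    congr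
  · obtain ⟨θ, hθ⟩ := mem_easyT hA
    exact Set.mem_iUnion.2 ⟨θ, hθ⟩

/-! ### The test language is in `NP` -/

/-- the test for the strings of `2 ^ (2 ^ n)` ones -/
def stB (x : List Bool) : Bool :=
  x.all (fun b => b) && (decide (x.length = 2 ^ lg x.length) &&
    decide (lg x.length = 2 ^ lg (lg x.length)))

theorem stB_iff (x : List Bool) : stB x = true ↔ ∃ n, x = sup n := by
  unfold stB sup
  simp only [Bool.and_eq_true, List.all_eq_true, decide_eq_true_eq]
  constructor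
  · rintro ⟨h1, h2, h3⟩
    refine ⟨lg (lg x.length), ?_⟩
    rw [← h3, ← h2]
    exact List.eq_replicate_iff.2 ⟨rfl, fun b hb => h1 b hb⟩
  · rintro ⟨n, rfl⟩
    rw [List.length_replicate, lg_two_pow, lg_two_pow]
    exact ⟨fun b hb => (List.mem_replicate.1 hb).2, rfl, rfl⟩

theorem poly_stB : Poly stB := by
  unfold stB
  have h1 : UPoly (fun x : List Bool => lg x.length) := uPoly_lg (NPC.Poly.length NPC.Poly.id)
  have h2 : UPoly (fun x : List Bool => lg (lg x.length)) := uPoly_lg h1.toPoly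
  exact Poly.and (Poly.all (p := fun (_ : List Bool) (b : Bool) => b) Poly.id
    (Poly.snd Poly.id)) (Poly.and (Poly.dec_eq (NPC.Poly.length NPC.Poly.id) (poly_two_pow h1))
      (Poly.dec_eq h1.toPoly (poly_two_pow h2)))

/-- the verdict -/
def Hs (y : List Bool × List Bool) : List Bool :=
  [decide ((unpair y.1).1.length = (unpair y.1).2.length) &&
    (y.2.all (fun b => b) && stB (unpair y.1).2)]

theorem poly_Hs : Poly Hs := by
  have hw : Poly (fun y : List Bool => (unpair y).1) := Poly.fst poly_unpair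
  have hx : Poly (fun y : List Bool => (unpair y).2) := Poly.snd poly_unpair
  have hx' : Poly (fun p : List Bool × List Bool => (unpair p.1).2) := hx.comp (Poly.fst Poly.id)
  have hw' : Poly (fun p : List Bool × List Bool => (unpair p.1).1) := hw.comp (Poly.fst Poly.id)
  unfold Hs
  refine Poly.cons (Poly.and (Poly.decide_eq (Poly.length hw') (Poly.length hx')) (Poly.and ?_ ?_))
    (NPC.Poly.const [])
  · exact Poly.all (p := fun (_ : List Bool × List Bool) (b : Bool) => b) (Poly.snd Poly.id)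
      (Poly.snd Poly.id)
  · exact poly_stB.comp hx'

theorem stL_np (A : Oracle) : IsNP A (stL A) := by
  refine ⟨fun y => Hs (y, (V7.Q y).map A), Polynomial.X, IsFP.tt V7.poly_Q poly_Hs, fun x => ?_⟩
  have key : ∀ w : List Bool, Hs (pairBits w x, (V7.Q (pairBits w x)).map A) = [true] ↔
      (w.length = x.length ∧ (∀ i < x.length, A (x ++ w ++ List.replicate i true) = true) ∧
        ∃ n, x = sup n) := by
    intro w
    unfold Hs V7.Q
    simp only [unpair_pairBits, List.cons.injEq, and_true, Bool.and_eq_true, decide_eq_true_eq,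
      List.all_eq_true, List.mem_map, List.mem_range, stB_iff]
    refine and_congr_right fun _ => and_congr_left fun _ => ?_
    constructor
    · intro h2 i hi
      apply h2
      refine ⟨_, ⟨i, hi, rfl⟩, ?_⟩
      rw [min_eq_left hi.le]
    · rintro h2 b ⟨_, ⟨i, hi, rfl⟩, rfl⟩
      rw [min_eq_left hi.le]
      exact h2 i hi
  constructor
  · rintro ⟨⟨j, hj, h⟩, hn⟩
    refine ⟨bitsOf x.length j, ?_, ?_⟩
    · rw [length_bitsOf, Polynomial.eval_X]
    · rw [key]
      exact ⟨length_bitsOf _ _, h, hn⟩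
  · rintro ⟨w, _, hw⟩
    rw [key] at hw
    obtain ⟨hw1, hw2, hw3⟩ := hw
    refine ⟨?_, hw3⟩
    obtain ⟨j, hj, h⟩ := exists_bitsOf w
    rw [hw1] at hj h
    refine ⟨j, hj, fun i hi => ?_⟩
    unfold wit
    rw [h]
    exact hw2 i hi

end Pool.Agent.J4H65.OF
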