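import Pool.Agent.J4H65.OF.Count
import Pool.Agent.J4H65.OF.Tal3
import Pool.Agent.J4H65.OP.Main

/-!
# Arbitrarily slowly growing changes of a random oracle
-/

set_option autoImplicit false

namespace Pool.Agent.J4H65.OF

open MeasureTheory Filter Pool.Agent.NPC Pool.Agent.H620R2.Gauge Pool.Agent.H620R2.Gauge.CC
  Pool.Agent.J4H65.OP

open H529R3.Lev (IsSpace IsTHpoly test test_space null_anti null_level)

theorem nulls {h : ℕ → ℝ} (hh : ∀ ε' : ℝ, 0 < ε' → ∀ᶠ N : ℕ in atTop, h N ≤ 2 ^ (l4 N) ^ ε') :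
    Null h {A : Oracle | ∀ L, IsNP A L → WithAdvice (IsNP A) Lᶜ} ∧
      ∀ i ≤ 3, Null h {A : Oracle | ∀ L, IsSpace i A L → IsTHpoly i A L} := by
  have hlog := Real.tendsto_logb_atTop (b := 2) (by norm_num)
  have t1 : Tendsto (fun N : ℕ => Real.logb 2 (N : ℝ)) atTop atTop :=
    hlog.comp tendsto_natCast_atTop_atTop
  have t2 := hlog.comp t1
  have t3 := hlog.comp t2
  -- the comparison of the gauges
  have hcmp : ∀ x : ℕ → ℝ, (∀ᶠ N in atTop, l4 N ≤ x N) → ∀ ε' : ℝ, 0 < ε' →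
      ∃ᶠ N : ℕ in atTop, h N ≤ 2 ^ (x N) ^ ε' := by
    intro x hx ε' hε'
    refine Eventually.frequently ?_
    filter_upwards [hx, hh ε' hε', tendsto_l4.eventually_ge_atTop 0] with N h1 h2 h3
    refine h2.trans ?_
    apply Real.rpow_le_rpow_of_exponent_le (by norm_num)
    exact Real.rpow_le_rpow h3 h1 hε'.le
  have c4 : ∀ᶠ N : ℕ in atTop, l4 N ≤ l4 N := Eventually.of_forall fun _ => le_rfl
  have c3 : ∀ᶠ N : ℕ in atTop, l4 N ≤ Real.logb 2 (Real.logb 2 (Real.logb 2 N)) :=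
    t3.eventually H529R3.Lev.log_le_self
  have c2 : ∀ᶠ N : ℕ in atTop, l4 N ≤ Real.logb 2 (Real.logb 2 N) := by
    filter_upwards [c3, t2.eventually H529R3.Lev.log_le_self] with N h1 h2
    exact h1.trans h2
  have c1 : ∀ᶠ N : ℕ in atTop, l4 N ≤ Real.logb 2 N := by
    filter_upwards [c2, t1.eventually H529R3.Lev.log_le_self] with N h1 h2
    exact h1.trans h2
  refine ⟨nullN (hcmp _ c1) _ fun A hA => hA _ (hitLang_np A), fun i hi => ?_⟩
  refine null_level i h (fun ε' hε' => ?_) _ fun A hA => hA _ (test_space i A)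
  have hx : ∀ᶠ N : ℕ in atTop, l4 N ≤ (Real.logb 2)^[i + 1] (N : ℝ) := by
    interval_cases i
    · exact c1
    · exact c2
    · exact c3
    · exact c4
  exact hcmp _ hx ε' hε'

theorem exists_thr {F : ℕ → ℝ} (hF : Tendsto F atTop atTop) :
    ∃ thr : ℕ → ℕ, ∀ κ N : ℕ, thr κ ≤ N → 2 * ((κ : ℝ) + 1) ≤ F N := by
  choose thr h using fun κ : ℕ => eventually_atTop.1 (hF.eventually_ge_atTop (2 * ((κ : ℝ) + 1)))
  exact ⟨thr, h⟩

/-- the properties of the oracle -/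
def Good (Λ : ℕ → Oracle → Set (List Bool)) (A : Oracle) : Prop :=
  HasSystems Λ A ∧ NoCollapse A

/-- the family with the languages in `PSPACE` -/
def fam (gM : ℕ → SAlg × Polynomial ℕ) (Λ : ℕ → Oracle → Set (List Bool)) (e : ℕ) (A : Oracle) :
    Set (List Bool) :=
  if e % 2 = 0 then {z | Acc (gM (e / 2)).1 A z} else Λ (e / 2) A

/-- the bounds -/
noncomputable def fab (bM bΛ : ℕ → Polynomial ℕ) (e : ℕ) : Polynomial ℕ :=
  if e % 2 = 0 then bM (e / 2) else bΛ (e / 2)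

/-- the systems -/
theorem fam_opt {Λ : ℕ → Oracle → Set (List Bool)} {gM : ℕ → SAlg × Polynomial ℕ}
    {bM bΛ : ℕ → Polynomial ℕ} (hgM : Function.Surjective gM)
    (hbM : ∀ (e : ℕ) (x a : List Bool), a.length ≤ (gM e).2.eval x.length →
      ((gM e).1.act (pairBits x a)).length ≤ (bM e).eval x.length)
    (hbΛ : ∀ (e : ℕ) (A A' : Oracle) (x : List Bool),
      (∀ y : List Bool, y.length ≤ (bΛ e).eval x.length → A y = A' y) → (x ∈ Λ e A ↔ x ∈ Λ e A'))
    (thr : ℕ → ℕ) (B : Oracle)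
    (h1 : ∀ e : ℕ, {q : List Bool | ∃ k n, Scale 1 e q n ∧
      Mark (Rb (fab bM bΛ)) e k q n B}.Finite) :
    HasSystems Λ (Fi (ac thr) (fam gM Λ) (fab bM bΛ) B) := by
  set g := fam gM Λ with hg
  set b := fab bM bΛ with hb
  refine ⟨fun L hne hL => ?_, fun e hne => ?_⟩
  · obtain ⟨M, p, hM⟩ := hL
    obtain ⟨e, he⟩ := hgM (M, p)
    refine opt (scale_ac thr) B h1 (2 * e) L hne fun z => ?_
    have hbe := hbM e
    have k1 : (2 * e) % 2 = 0 := by omega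
    have k2 : (2 * e) / 2 = e := by omega
    rw [hg]
    unfold fam
    rw [if_pos k1, k2, Set.mem_ofPred_eq]
    have k3 : b (2 * e) = bM e := by
      rw [hb]
      unfold fab
      rw [if_pos k1, k2]
    rw [k3]
    rw [he] at hbe ⊢
    exact mem_iff hbe hM z
  · refine opt (scale_ac thr) B h1 (2 * e + 1) _ hne fun z => ?_
    have k1 : ¬ (2 * e + 1) % 2 = 0 := by omega
    have k2 : (2 * e + 1) / 2 = e := by omega
    have k3 : b (2 * e + 1) = bΛ e := by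
      rw [hb]
      unfold fab
      rw [if_neg k1, k2]
    have k4 : ∀ A, g (2 * e + 1) A = Λ e A := by
      intro A
      rw [hg]
      unfold fam
      rw [if_neg k1, k2]
    rw [k4, k3]
    refine hbΛ e _ _ z fun y hy => ?_
    unfold cut
    rw [if_pos hy]

/-- the construction -/
theorem base (Λ : ℕ → Oracle → Set (List Bool)) (hΛ : ∀ e, IsLocal (Λ e)) :
    ∃ (g : ℕ → Oracle → Set (List Bool)) (b : ℕ → Polynomial ℕ), ∀ᵐ B ∂ranO, ∀ thr : ℕ → ℕ,
      (∀ N, (dif (Fi (ac thr) g b B) B N).card ≤ 2 * ⌊l4 N / 2⌋₊) →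
        Good Λ (Fi (ac thr) g b B) := by
  obtain ⟨gM, hgM⟩ := exists_enum
  choose bM hbM using fun e : ℕ => act_length (gM e).1 (gM e).2
  choose bΛ hbΛ using hΛ
  set g := fam gM Λ with hg
  set b := fab bM bΛ with hb
  refine ⟨g, b, ?_⟩
  set h₀ : ℕ → ℝ := fun N => 12 * l4 N * l4 N with hh₀
  have hnull : ∀ Y : Set Oracle, Null h₀ Y → ∀ᵐ B ∂ranO, ∀ thr : ℕ → ℕ,
      (∀ N, (dif (Fi (ac thr) g b B) B N).card ≤ 2 * ⌊l4 N / 2⌋₊) →
        ¬ (Fi (ac thr) g b B ∈ Y) := by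
    intro Y hY
    obtain ⟨c, hc⟩ := cost b tendsto_l4 (h := h₀) (Eventually.of_forall fun _ => le_rfl)
    have h1 := null_law (Sp b) (fun N => 2 * ⌊l4 N / 2⌋₊) h₀ c hc Y hY
    have h2 : ∀ᵐ B ∂ranO, ¬ ∃ A ∈ Y, ∀ N, dif A B N ⊆ Sp b N ∧
        (dif A B N).card ≤ 2 * ⌊l4 N / 2⌋₊ := by
      rw [ae_iff]
      simpa only [not_not] using h1
    filter_upwards [h2] with B hB thr hthr hmem
    exact hB ⟨_, hmem, fun N => ⟨dif_sub thr g b B N, hthr N⟩⟩
  have hh3 : ∀ᶠ N : ℕ in atTop, h₀ N ≤ (l4 N) ^ 3 := by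
    filter_upwards [tendsto_l4.eventually_ge_atTop 12] with N h3
    rw [hh₀]
    simp only
    have h6 : 12 * l4 N ≤ l4 N * l4 N := by nlinarith
    calc 12 * l4 N * l4 N ≤ l4 N * l4 N * l4 N := mul_le_mul_of_nonneg_right h6 (by linarith)
      _ = (l4 N) ^ 3 := by ring
  have hh : ∀ ε' : ℝ, 0 < ε' → ∀ᶠ N : ℕ in atTop, h₀ N ≤ 2 ^ (l4 N) ^ ε' := by
    intro ε' hε'
    filter_upwards [hh3, tendsto_l4.eventually (H529R3.Gap.rpow_le_two
      (show (0 : ℝ) < 3 by norm_num) hε')] with N h1 h2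
    refine (h1.trans (le_of_eq ?_)).trans h2
    have h5 : (3 : ℝ) = ((3 : ℕ) : ℝ) := by norm_num
    rw [h5, Real.rpow_natCast]
  obtain ⟨n1, n2⟩ := nulls hh
  have a1 := hnull _ n1
  have a2 : ∀ᵐ B ∂ranO, ∀ i : Fin 4, ∀ thr : ℕ → ℕ,
      (∀ N, (dif (Fi (ac thr) g b B) B N).card ≤ 2 * ⌊l4 N / 2⌋₊) →
        ¬ (Fi (ac thr) g b B ∈ {A : Oracle | ∀ L, IsSpace i A L → IsTHpoly i A L}) := by
    rw [ae_all_iff]
    exact fun i => hnull _ (n2 i (by omega))
  have a3 := hnull _ (null_tally hh3)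
  filter_upwards [ae_finite (Rb b), a1, a2, a3] with B h1 h2' h3' h7' thr hthr
  have h2 := h2' thr hthr
  have h3 := fun i => h3' i thr hthr
  have h7 := h7' thr hthr
  refine ⟨fam_opt hgM hbM hbΛ thr B h1, ?_, ?_, fun i hi => ?_⟩
  · have h4 : ¬ ∀ L, IsNP (Fi (ac thr) g b B) L → WithAdvice (IsNP (Fi (ac thr) g b B)) Lᶜ := h2
    push Not at h4
    exact h4
  · exact ⟨_, stL_np _, h7, fun x hx => hx.2⟩
  · have h4 : ¬ ∀ L, IsSpace i (Fi (ac thr) g b B) L → IsTHpoly i (Fi (ac thr) g b B) L :=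
      h3 ⟨i, by omega⟩
    push Not at h4
    exact h4

theorem tendsto_min {u v : ℕ → ℝ} (hu : Tendsto u atTop atTop) (hv : Tendsto v atTop atTop) :
    Tendsto (fun N => min (u N) (v N)) atTop atTop :=
  tendsto_atTop_atTop.2 fun x => by
    obtain ⟨N₀, h₀⟩ := eventually_atTop.1 (hu.eventually_ge_atTop x)
    obtain ⟨N₁, h₁⟩ := eventually_atTop.1 (hv.eventually_ge_atTop x)
    exact ⟨max N₀ N₁, fun N hN => le_min (h₀ N ((le_max_left _ _).trans hN))
      (h₁ N ((le_max_right _ _).trans hN))⟩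

/-- few changes of a random oracle -/
theorem main1 (Λ : ℕ → Oracle → Set (List Bool)) (hΛ : ∀ e, IsLocal (Λ e)) :
    ∀ᵐ B ∂ranO, ∀ f : ℕ → ℕ, Tendsto f atTop atTop →
      ∃ A : Oracle, (∀ N, (dif A B N).card ≤ f N) ∧ Good Λ A := by
  obtain ⟨g, b, h⟩ := base Λ hΛ
  filter_upwards [h] with B hB f hf
  obtain ⟨thr, hthr⟩ := exists_thr
    (tendsto_min ((tendsto_natCast_atTop_atTop (R := ℝ)).comp hf) tendsto_l4)
  have h1 := fun N => card_dif_le thr g b hthr B N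
  refine ⟨Fi (ac thr) g b B, fun N => (h1 N).trans ?_, hB thr fun N => (h1 N).trans ?_⟩
  · have h3 : ((2 * ⌊min (f N : ℝ) (l4 N) / 2⌋₊ : ℕ) : ℝ) ≤ f N := by
      rcases le_total 0 (min (f N : ℝ) (l4 N)) with h | h
      · exact (d_le h).trans (min_le_left _ _)
      · have h4 : ⌊min (f N : ℝ) (l4 N) / 2⌋₊ = 0 := Nat.floor_of_nonpos (by linarith)
        rw [h4]
        simp
    exact_mod_cast h3
  · apply Nat.mul_le_mul_left
    apply Nat.floor_le_floor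
    have := min_le_right ((Nat.cast ∘ f) N : ℝ) (l4 N)
    linarith

/-- gauges -/
theorem main2 (Λ : ℕ → Oracle → Set (List Bool)) (hΛ : ∀ e, IsLocal (Λ e)) (f : ℕ → ℝ)
    (hf : Tendsto (fun N => f N / l4 N) atTop atTop) (O : Set Oracle)
    (hO : ∀ A, Good Λ A → A ∈ O) : ¬ Null f O := by
  intro hnull
  have hf' : Tendsto (fun N => f N / l4 N / 12) atTop atTop :=
    hf.atTop_div_const (by norm_num)
  have hF := tendsto_min hf' tendsto_l4
  obtain ⟨g, b, h⟩ := base Λ hΛ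
  obtain ⟨thr, hthr⟩ := exists_thr hF
  have h1 := fun B N => card_dif_le thr g b hthr B N
  obtain ⟨c, hc⟩ := cost b hF (h := f) (by
    filter_upwards [tendsto_l4.eventually_gt_atTop 0] with N hN
    calc 12 * min (f N / l4 N / 12) (l4 N) * l4 N ≤ 12 * (f N / l4 N / 12) * l4 N := by
          gcongr
          exact min_le_left _ _
      _ = f N := by
          field_simp)
  have h4 := null_law (Sp b) (fun N => 2 * ⌊min (f N / l4 N / 12) (l4 N) / 2⌋₊) f c hc O hnull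
  have h5 : ∀ᵐ B ∂ranO, ¬ ∃ A ∈ O, ∀ N, dif A B N ⊆ Sp b N ∧
      (dif A B N).card ≤ 2 * ⌊min (f N / l4 N / 12) (l4 N) / 2⌋₊ := by
    rw [ae_iff]
    simpa only [not_not] using h4
  have h6 : ∀ᵐ B ∂ranO, False := by
    filter_upwards [h, h5] with B ha hb
    refine hb ⟨Fi (ac thr) g b B, hO _ (ha thr fun N => (h1 B N).trans ?_),
      fun N => ⟨dif_sub thr g b B N, h1 B N⟩⟩
    apply Nat.mul_le_mul_left
    apply Nat.floor_le_floor
    have := min_le_right (f N / l4 N / 12) (l4 N)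
    linarith
  rw [eventually_false_iff_eq_bot, ae_eq_bot] at h6
  have h7 : ranO Set.univ = 1 := measure_univ
  rw [h6] at h7
  simp at h7

end Pool.Agent.J4H65.OF
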