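import Pool.Agent.J4H65.OP.Opt
import Mathlib.Data.ZMod.Basic

/-!
# Marks which can be made by changing one bit (syndromes)
-/

set_option autoImplicit false

namespace Pool.Agent.J4H65.OF

open Pool.Agent.NPC Pool.Agent.H620R2.Gauge Pool.Agent.H620R2.Gauge.CC Pool.Agent.J4H65.OP

/-- the digit number `t` of `v` -/
def tb (v t : ℕ) : Bool := decide (v / 2 ^ t % 2 = 1)

/-- the parity number `t` of the answers -/
def par (r t : ℕ) (X : ℕ → Bool) : ZMod 2 :=
  ∑ v ∈ Finset.range (2 ^ r), if (tb v t && X v) = true then 1 else 0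

theorem exists_syn (r : ℕ) (p : ℕ → ZMod 2) :
    ∃ v < 2 ^ r, ∀ t < r, (if tb v t = true then (1 : ZMod 2) else 0) = p t := by
  refine ⟨Nat.ofBits (fun i : Fin r => decide (p i = 1)), Nat.ofBits_lt_two_pow _, fun t ht => ?_⟩
  have h1 := Nat.testBit_ofBits_lt (fun i : Fin r => decide (p i = 1)) t ht
  rw [Nat.testBit_eq_decide_div_mod_eq] at h1
  unfold tb
  rw [h1]
  simp only [decide_eq_true_eq]
  have h2 : ∀ z : ZMod 2, (if z = 1 then (1 : ZMod 2) else 0) = z := by decide
  exact h2 _

/-- the bit which has to be changed -/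
noncomputable def syn (r : ℕ) (X : ℕ → Bool) : ℕ :=
  (exists_syn r (fun t => par r t X + 1)).choose

theorem syn_lt (r : ℕ) (X : ℕ → Bool) : syn r X < 2 ^ r :=
  (exists_syn r (fun t => par r t X + 1)).choose_spec.1

theorem syn_spec {r t : ℕ} (ht : t < r) (X : ℕ → Bool) :
    (if tb (syn r X) t = true then (1 : ZMod 2) else 0) = par r t X + 1 :=
  (exists_syn r (fun t => par r t X + 1)).choose_spec.2 t ht

theorem par_flip {r t v₀ : ℕ} (h0 : v₀ < 2 ^ r) {X X' : ℕ → Bool}
    (h : ∀ v < 2 ^ r, v ≠ v₀ → X' v = X v) (h' : X' v₀ = !X v₀) :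
    par r t X' = par r t X + if tb v₀ t = true then 1 else 0 := by
  unfold par
  have hm : v₀ ∈ Finset.range (2 ^ r) := Finset.mem_range.2 h0
  rw [← Finset.add_sum_erase _ _ hm, ← Finset.add_sum_erase (Finset.range (2 ^ r))
    (fun v => if (tb v t && X v) = true then (1 : ZMod 2) else 0) hm]
  have h1 : ∑ v ∈ (Finset.range (2 ^ r)).erase v₀,
      (if (tb v t && X' v) = true then (1 : ZMod 2) else 0) =
      ∑ v ∈ (Finset.range (2 ^ r)).erase v₀,
      (if (tb v t && X v) = true then (1 : ZMod 2) else 0) := by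
    refine Finset.sum_congr rfl fun v hv => ?_
    rw [Finset.mem_erase, Finset.mem_range] at hv
    rw [h v hv.2 hv.1]
  rw [h1, h']
  generalize (∑ v ∈ (Finset.range (2 ^ r)).erase v₀,
      (if (tb v t && X v) = true then (1 : ZMod 2) else 0)) = S
  have h2 : ∀ (a b : Bool) (S : ZMod 2), (if (a && !b) = true then (1 : ZMod 2) else 0) + S =
      (if (a && b) = true then (1 : ZMod 2) else 0) + S + if a = true then 1 else 0 := by
    decide
  exact h2 _ _ _

/-- changing the right bit makes all parities `1` -/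
theorem par_syn {r t : ℕ} (ht : t < r) {X X' : ℕ → Bool}
    (h : ∀ v < 2 ^ r, v ≠ syn r X → X' v = X v) (h' : X' (syn r X) = !X (syn r X)) :
    par r t X' = 1 := by
  rw [par_flip (syn_lt r X) h h', syn_spec ht]
  have h2 : ∀ z : ZMod 2, z + (z + 1) = 1 := by decide
  exact h2 _

theorem par_congr {r t : ℕ} {X X' : ℕ → Bool} (h : ∀ v < 2 ^ r, X' v = X v) :
    par r t X' = par r t X := by
  unfold par
  refine Finset.sum_congr rfl fun v hv => ?_
  rw [h v (Finset.mem_range.1 hv)]

theorem par_eq_one_iff {r t : ℕ} {X : ℕ → Bool} :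
    par r t X = 1 ↔ ((List.range (2 ^ r)).countP (fun v => tb v t && X v)) % 2 = 1 := by
  have h1 : par r t X = ((List.range (2 ^ r)).countP (fun v => tb v t && X v) : ℕ) := by
    unfold par
    rw [Finset.sum_boole]
    congr 1
    rw [List.countP_eq_length_filter]
    show ((List.range (2 ^ r)).filter (fun x => decide ((tb x t && X x) = true))).length = _
    simp only [Bool.decide_eq_true]
  rw [h1, ZMod.natCast_eq_one_iff_odd, Nat.odd_iff]

/-- there is a mark of the kind `k` at the scale `n` for the program `q` -/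
def Mark (R : ℕ → Polynomial ℕ) (e : ℕ) (k : Bool) (q : List Bool) (n : ℕ) (A : Oracle) : Prop :=
  ∀ t < wd q n, par (wd q n) t (fun v => A (cod R e (k :: q) v n)) = 1

theorem four_mul_le {i : ℕ} (h : 4 ≤ i) : 4 * i ≤ 2 ^ i := by
  induction i, h using Nat.le_induction with
  | base => norm_num
  | succ m hm ih =>
    rw [pow_succ]
    omega

/-- enough room for the marks -/
theorem two_pow_wd_le {e : ℕ} {q : List Bool} {n : ℕ} (h : Scale 1 e q n) :
    2 ^ wd q n ≤ n := by
  obtain ⟨j, hj, rfl⟩ := h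
  unfold wd
  rw [lg_two_pow, lg_two_pow]
  apply Nat.pow_le_pow_right (by norm_num)
  set i := stp 1 e q * j with hi
  have h1 : 2 ^ (2 ^ (q.length + 1)) ≤ i := by
    have h2 : 2 ^ (2 ^ (q.length + 1)) ≤ stp 1 e q := by
      unfold stp
      apply Nat.pow_le_pow_right (by norm_num)
      apply Nat.pow_le_pow_right (by norm_num)
      omega
    exact h2.trans (Nat.le_mul_of_pos_right _ hj)
  have h3 : q.length + 1 < 2 ^ (q.length + 1) := Nat.lt_two_pow_self
  have h4 : 2 ^ (q.length + 1) < 2 ^ (2 ^ (q.length + 1)) := Nat.lt_two_pow_self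
  have h5 : 4 ≤ 2 ^ (2 ^ (q.length + 1)) := by
    calc 4 = 2 ^ (2 ^ (0 + 1)) := by norm_num
      _ ≤ _ := by
        apply Nat.pow_le_pow_right (by norm_num)
        apply Nat.pow_le_pow_right (by norm_num)
        omega
  have h6 : 4 ≤ i := by omega
  have h7 : i.size ≤ i := by
    rw [Nat.size_le]
    exact Nat.lt_two_pow_self
  have h8 := four_mul_le h6
  omega

end Pool.Agent.J4H65.OF
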