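import Pool.Agent.J4H65.OF.Opt
import Pool.Agent.J4H65.OP.Meas

/-!
# Natural marks are rare
-/

set_option autoImplicit false

namespace Pool.Agent.J4H65.OF

open MeasureTheory Pool.Agent.NPC Pool.Agent.H620R2.Gauge Pool.Agent.H620R2.Gauge.CC
  Pool.Agent.J4H65.OP

/-- change of one bit -/
def flp (y₀ : List Bool) (B : Oracle) : Oracle := fun y => if y = y₀ then !B y else B y

theorem coin_not : coinM.map (fun b : Bool => !b) = coinM := by
  unfold coinM
  rw [Measure.map_add _ _ (measurable_of_finite _), Measure.map_smul, Measure.map_smul,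
    Measure.map_dirac' (measurable_of_finite _), Measure.map_dirac' (measurable_of_finite _),
    Bool.not_true, Bool.not_false, add_comm]

theorem flp_pres (y₀ : List Bool) : MeasurePreserving (flp y₀) ranO ranO := by
  have hm : ∀ y : List Bool, Measurable (fun b : Bool => if y = y₀ then !b else b) :=
    fun y => measurable_of_finite _
  refine ⟨?_, ?_⟩
  · rw [measurable_pi_iff]
    intro y
    exact (hm y).comp (measurable_pi_apply y)
  · have h1 := Measure.infinitePi_map_pi (μ := fun _ : List Bool => coinM)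
      (f := fun y (b : Bool) => if y = y₀ then !b else b) hm
    have h2 : (fun y : List Bool => coinM.map (fun b : Bool => if y = y₀ then !b else b)) =
        fun _ => coinM := by
      funext y
      by_cases h : y = y₀
      · simp only [if_pos h]
        exact coin_not
      · simp only [if_neg h]
        exact Measure.map_id
    have h3 : ranO.map (flp y₀) =
        Measure.infinitePi (fun y : List Bool => coinM.map
          (fun b : Bool => if y = y₀ then !b else b)) := h1
    rw [h3]
    unfold ranO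
    congr 1

theorem meas_fin (N : ℕ) (p : ℕ → List Bool) (E : (Fin N → Bool) → Prop) :
    MeasurableSet {B : Oracle | E (fun i => B (p i))} := by
  have h1 : Measurable (fun (B : Oracle) (i : Fin N) => B (p i)) := by
    rw [measurable_pi_iff]
    intro i
    exact measurable_pi_apply _
  exact h1 (Set.toFinite {x | E x}).measurableSet

/-- the oracles with given parities -/
def Eu (r : ℕ) (p : ℕ → List Bool) (u : ℕ) : Set Oracle :=
  {B | ∀ t < r, par r t (fun v => B (p v)) = 1 + if tb u t = true then 1 else 0}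

theorem meas_Eu (r : ℕ) (p : ℕ → List Bool) (u : ℕ) : MeasurableSet (Eu r p u) := by
  have h1 := meas_fin (2 ^ r) p (fun x => ∀ t < r,
    par r t (fun v => if h : v < 2 ^ r then x ⟨v, h⟩ else false) =
      1 + if tb u t = true then 1 else 0)
  refine (congrArg MeasurableSet ?_).mp h1
  ext B
  unfold Eu
  simp only [Set.mem_ofPred_eq]
  refine forall_congr' fun t => forall_congr' fun _ => ?_
  have h2 : par r t (fun v => if _h : v < 2 ^ r then B (p v) else false) =
      par r t (fun v => B (p v)) := par_congr fun v hv => by rw [dif_pos hv]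
  rw [← h2]

theorem tb_inj {r u u' : ℕ} (hu : u < 2 ^ r) (hu' : u' < 2 ^ r)
    (h : ∀ t < r, tb u t = tb u' t) : u = u' := by
  apply Nat.eq_of_testBit_eq
  intro t
  by_cases ht : t < r
  · rw [Nat.testBit_eq_decide_div_mod_eq, Nat.testBit_eq_decide_div_mod_eq]
    exact h t ht
  · have h1 : 2 ^ r ≤ 2 ^ t := Nat.pow_le_pow_right (by norm_num) (by omega)
    rw [Nat.testBit_lt_two_pow (by omega), Nat.testBit_lt_two_pow (by omega)]

theorem par_le (r : ℕ) (p : ℕ → List Bool) (hp : ∀ u v, p u = p v → u = v) :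
    ranO {B | ∀ t < r, par r t (fun v => B (p v)) = 1} ≤ (2⁻¹ : ENNReal) ^ r := by
  set m := ranO {B : Oracle | ∀ t < r, par r t (fun v => B (p v)) = 1} with hm
  have h1 : ∀ u ∈ Finset.range (2 ^ r), m ≤ ranO (Eu r p u) := by
    intro u hu
    rw [← (flp_pres (p u)).measure_preimage (meas_Eu r p u).nullMeasurableSet]
    refine measure_mono fun B hB => ?_
    show flp (p u) B ∈ Eu r p u
    intro t ht
    have h2 := par_flip (t := t) (Finset.mem_range.1 hu) (X := fun v => B (p v))
      (X' := fun v => flp (p u) B (p v)) (fun v _ hv => by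
        unfold flp
        rw [if_neg (fun h => hv (hp _ _ h))]) (by
        unfold flp
        rw [if_pos rfl])
    rw [h2, hB t ht]
  have h2 : ∑ u ∈ Finset.range (2 ^ r), ranO (Eu r p u) ≤ 1 := by
    rw [← measure_biUnion_finset ?_ (fun u _ => meas_Eu r p u)]
    · exact prob_le_one
    · intro u hu u' hu' hne
      show Disjoint (Eu r p u) (Eu r p u')
      rw [Set.disjoint_left]
      intro B hB hB'
      apply hne
      refine tb_inj (Finset.mem_range.1 hu) (Finset.mem_range.1 hu') fun t ht => ?_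
      have h3 := hB t ht
      rw [hB' t ht] at h3
      revert h3
      cases tb u t <;> cases tb u' t <;> decide
  have h3 : (2 : ENNReal) ^ r * m ≤ 1 := by
    calc (2 : ENNReal) ^ r * m = ∑ u ∈ Finset.range (2 ^ r), m := by
          rw [Finset.sum_const, Finset.card_range, nsmul_eq_mul]
          push_cast
          rfl
      _ ≤ ∑ u ∈ Finset.range (2 ^ r), ranO (Eu r p u) := Finset.sum_le_sum h1
      _ ≤ 1 := h2
  rw [← ENNReal.inv_pow, ← one_div, ENNReal.le_div_iff_mul_le (Or.inl (by positivity))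
    (Or.inl (by finiteness)), mul_comm]
  exact h3

theorem mark_le (R : ℕ → Polynomial ℕ) (e : ℕ) (k : Bool) (q : List Bool) (n : ℕ) :
    ranO {B | Mark R e k q n B} ≤ (2⁻¹ : ENNReal) ^ wd q n :=
  par_le (wd q n) (fun v => cod R e (k :: q) v n) fun _ _ h => (cod_inj R h).2.2.1

theorem tsum_mark (R : ℕ → Polynomial ℕ) (e : ℕ) (k : Bool) :
    ∑' p : List Bool × ℕ, ranO {B | Mark R e k p.1 (2 ^ (2 ^ p.2)) B} ≠ ⊤ := by
  have h1 : ∀ p : List Bool × ℕ, ranO {B | Mark R e k p.1 (2 ^ (2 ^ p.2)) B} ≤
      (4 * OP.sq (idx p.1)) * OP.sq p.2 := by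
    intro p
    refine (mark_le R e k p.1 _).trans ?_
    unfold wd
    rw [lg_two_pow, lg_two_pow, pow_add, mul_comm]
    exact mul_le_mul' (half_pow_len p.1) (half_pow_size p.2)
  refine ne_top_of_le_ne_top ?_ (ENNReal.tsum_le_tsum h1)
  have h0 : ∑' p : List Bool × ℕ, (4 * OP.sq (idx p.1)) * OP.sq p.2 =
      ∑' (q : List Bool) (i : ℕ), (4 * OP.sq (idx q)) * OP.sq i :=
    ENNReal.tsum_prod (f := fun q i => (4 * OP.sq (idx q)) * OP.sq i)
  rw [h0]
  have h2 : ∀ q : List Bool, ∑' i : ℕ, (4 * OP.sq (idx q)) * OP.sq i = (4 * OP.sq (idx q)) * ∑' i, OP.sq i :=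
    fun q => ENNReal.tsum_mul_left
  rw [tsum_congr h2, ENNReal.tsum_mul_right, ENNReal.tsum_mul_left]
  have h3 : ∑' q : List Bool, OP.sq (idx q) ≤ ∑' i, OP.sq i := by
    have hinj : Function.Injective idx := by
      intro a b h
      rw [← str_idx a, ← str_idx b, h]
    exact ENNReal.tsum_comp_le_tsum_of_injective hinj OP.sq
  exact ENNReal.mul_ne_top (ENNReal.mul_ne_top (by norm_num)
    (ne_top_of_le_ne_top tsum_sq h3)) tsum_sq

/-- almost surely there are only finitely many natural marks -/
theorem ae_finite (R : ℕ → Polynomial ℕ) :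
    ∀ᵐ B ∂ranO, ∀ e : ℕ, {q : List Bool | ∃ k n, Scale 1 e q n ∧ Mark R e k q n B}.Finite := by
  rw [ae_all_iff]
  intro e
  have h1 : ∀ᵐ B ∂ranO, ∀ k : Bool,
      {p : List Bool × ℕ | B ∈ {B | Mark R e k p.1 (2 ^ (2 ^ p.2)) B}}.Finite := by
    rw [ae_all_iff]
    exact fun k => ae_finite_setOfPred_mem (tsum_mark R e k)
  filter_upwards [h1] with B hB
  refine (((hB false).image Prod.fst).union ((hB true).image Prod.fst)).subset ?_
  rintro q ⟨k, n, ⟨j, _, rfl⟩, hw⟩
  cases k with
  | false => exact Or.inl ⟨(q, stp 1 e q * j), hw, rfl⟩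
  | true => exact Or.inr ⟨(q, stp 1 e q * j), hw, rfl⟩

end Pool.Agent.J4H65.OF
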