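import Pool.Agent.J4H65.OF.Sys

/-!
# The oracle, and the `p`-optimal proof systems
-/

set_option autoImplicit false

namespace Pool.Agent.J4H65.OF

open Pool.Agent.NPC Pool.Agent.H620R2.Gauge Pool.Agent.H620R2.Gauge.CC Pool.Agent.H660R2.NX
  Pool.Agent.J4H65.OP

/-- The program `q` with the clock `n` outputs elements of the set only (`K A` is the set, and only
the strings of length at most `b |z|` in the oracle are used for `z`). -/
def Sn (K : Oracle → Set (List Bool)) (b : Polynomial ℕ) (A : Oracle) (q : List Bool) (n : ℕ) :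
    Prop :=
  ∀ (w : List Bool) (m : ℕ) (z : List Bool),
    sim A q w n m [] = some z → z ∈ K (cut (b.eval z.length) A)

theorem Sn_congr {K : Oracle → Set (List Bool)} {b : Polynomial ℕ} {A A' : Oracle}
    {q : List Bool} {n N : ℕ}
    (h : ∀ z : List Bool, z.length < N → A z = A' z) (h1 : n < N)
    (h2 : b.eval n < N) (hV : Sn K b A q n) : Sn K b A' q n := by
  intro w m z hz
  have h3 : sim A q w n m [] = some z := by
    rw [← hz]
    exact sim_congr (fun s hs => h s (by omega)) m []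
  have h4 := sim_length m [] hz
  have h5 : b.eval z.length ≤ b.eval n := eval_mono _ h4
  have h6 : cut (b.eval z.length) A' = cut (b.eval z.length) A := by
    funext y
    unfold cut
    split_ifs with hy
    · exact (h y (by omega)).symm
    · rfl
  rw [h6]
  exact hV w m z h3

theorem Sn_iff {K : Oracle → Set (List Bool)} {b : Polynomial ℕ} {A A' : Oracle} {q : List Bool}
    {n N : ℕ}
    (h : ∀ z : List Bool, z.length < N → A z = A' z) (h1 : n < N)
    (h2 : b.eval n < N) : Sn K b A q n ↔ Sn K b A' q n :=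
  ⟨Sn_congr h h1 h2, Sn_congr (fun z hz => (h z hz).symm) h1 h2⟩

/-- a mark of the kind `k` is made at the scale `n`: the mark `false` at the scale `a`, and the
mark `true` at the first scale from `a` on at which the program is not sound -/
def Fm (e : ℕ) (K : Oracle → Set (List Bool)) (b : Polynomial ℕ) (a : ℕ) (A : Oracle) (k : Bool) (q : List Bool)
    (n : ℕ) : Prop :=
  (k = false ∧ n = a) ∨ (k = true ∧ a ≤ n ∧ Scale 1 e q n ∧ ¬ Sn K b A q n ∧
    ∀ n' < n, a ≤ n' → Scale 1 e q n' → Sn K b A q n')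

/-- the instance -/
def ins (q : List Bool) (v n : ℕ) : List Bool :=
  pairBits (pairBits q (List.replicate v true)) (List.replicate n true)

/-- the instances at which the bit is changed -/
def Fr (R : ℕ → Polynomial ℕ) (a : ℕ → List Bool → ℕ) (B : Oracle) (e : ℕ) (K : Oracle → Set (List Bool))
    (b : Polynomial ℕ) (A : Oracle) (x : List Bool) : Prop :=
  ∃ (k : Bool) (q : List Bool) (n : ℕ),
    x = ins (k :: q) (syn (wd q n) (fun v => B (cod R e (k :: q) v n))) n ∧
      Fm e K b (a e q) A k q n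

theorem Fm_congr {e a : ℕ} {K : Oracle → Set (List Bool)} {b : Polynomial ℕ} {A A' : Oracle} {k : Bool}
    {q : List Bool} {n N : ℕ}
    (h : ∀ z : List Bool, z.length < N → A z = A' z) (h1 : n < N)
    (h2 : b.eval n < N) (hV : Fm e K b a A k q n) : Fm e K b a A' k q n := by
  rcases hV with hV | ⟨hk, ha, hS, hn, hn'⟩
  · exact Or.inl hV
  · refine Or.inr ⟨hk, ha, hS, ?_, fun n' h3 h4 h5 => ?_⟩
    · rw [← Sn_iff h h1 h2]
      exact hn
    · rw [← Sn_iff h (by omega) ((eval_mono _ h3.le).trans_lt h2)]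
      exact hn' n' h3 h4 h5

theorem Fr_congr {R : ℕ → Polynomial ℕ} {a : ℕ → List Bool → ℕ} {B : Oracle} {e : ℕ} {K : Oracle → Set (List Bool)}
    {b : Polynomial ℕ} {A A' : Oracle} {x : List Bool} {N : ℕ}
    (h : ∀ z : List Bool, z.length < N → A z = A' z) (h1 : x.length < N)
    (h2 : b.eval x.length < N) (hV : Fr R a B e K b A x) : Fr R a B e K b A' x := by
  obtain ⟨k, q, n, rfl, hV⟩ := hV
  have hx : n ≤ (ins (k :: q) (syn (wd q n) (fun v => B (cod R e (k :: q) v n))) n).length := by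
    unfold ins
    rw [Pool.Agent.H620R2.Gauge.length_pairBits, List.length_replicate]
    omega
  exact ⟨k, q, n, rfl, Fm_congr h (by omega) ((eval_mono _ hx).trans_lt h2) hV⟩

variable (a : ℕ → List Bool → ℕ) (g : ℕ → Oracle → Set (List Bool)) (b : ℕ → Polynomial ℕ)

/-- what the code strings say -/
def Vt (B : Oracle) (e : ℕ) (A : Oracle) (x : List Bool) : Prop :=
  ¬ (B (code (Rb b) e x) = true ↔ Fr (Rb b) a B e (g e) (b e) A x)

/-- the oracle -/
noncomputable def Fi (B : Oracle) : Oracle := Phi (Rb b) (Vt a g b B) B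

/-- the strings at which the oracle is changed -/
def Tf (B A : Oracle) : Set (List Bool) :=
  {y | ∃ (e : ℕ) (x : List Bool), y = code (Rb b) e x ∧ Fr (Rb b) a B e (g e) (b e) A x}

theorem Fr_local (B : Oracle) (e : ℕ) (A A' : Oracle) (x : List Bool)
    (h : ∀ z : List Bool, z.length < (code (Rb b) e x).length → A z = A' z) :
    Fr (Rb b) a B e (g e) (b e) A x ↔ Fr (Rb b) a B e (g e) (b e) A' x := by
  have h1 := lt_length_code (Rb b) e x
  have h2 : (Rb b e).eval x.length = (b e).eval x.length + x.length := by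
    simp [Rb]
  rw [h2] at h1
  exact ⟨Fr_congr h (by omega) (by omega), Fr_congr (fun z hz => (h z hz).symm) (by omega)
    (by omega)⟩

theorem Vt_local (B : Oracle) (e : ℕ) (A A' : Oracle) (x : List Bool)
    (h : ∀ z : List Bool, z.length < (code (Rb b) e x).length → A z = A' z) :
    Vt a g b B e A x ↔ Vt a g b B e A' x := by
  unfold Vt
  rw [Fr_local a g b B e A A' x h]

theorem Fi_code (B : Oracle) (e : ℕ) (x : List Bool) :
    Fi a g b B (code (Rb b) e x) = true ↔
      ¬ (B (code (Rb b) e x) = true ↔ Fr (Rb b) a B e (g e) (b e) (Fi a g b B) x) := by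
  unfold Fi
  rw [Phi_code _ _ _ (Vt_local a g b B)]
  rfl

theorem Fi_pos (B : Oracle) (e : ℕ) (x : List Bool)
    (h : Fr (Rb b) a B e (g e) (b e) (Fi a g b B) x) :
    Fi a g b B (code (Rb b) e x) = !B (code (Rb b) e x) := by
  have h1 := Fi_code a g b B e x
  rw [Bool.eq_iff_iff, h1]
  cases B (code (Rb b) e x) <;> simp [h]

theorem Fi_neg (B : Oracle) (e : ℕ) (x : List Bool)
    (h : ¬ Fr (Rb b) a B e (g e) (b e) (Fi a g b B) x) :
    Fi a g b B (code (Rb b) e x) = B (code (Rb b) e x) := by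
  have h1 := Fi_code a g b B e x
  rw [Bool.eq_iff_iff, h1]
  cases B (code (Rb b) e x) <;> simp [h]

theorem Fi_not (B : Oracle) (y : List Bool) (h : y ∉ Tf a g b B (Fi a g b B)) :
    Fi a g b B y = B y := by
  by_cases h1 : ∃ (e : ℕ) (x : List Bool), y = code (Rb b) e x
  · obtain ⟨e, x, rfl⟩ := h1
    exact Fi_neg a g b B e x fun h2 => h ⟨e, x, rfl, h2⟩
  · push Not at h1
    exact Phi_not _ _ _ _ h1

variable {a} {g} {b}

theorem ins_inj {q q' : List Bool} {v v' n n' : ℕ} (h : ins q v n = ins q' v' n') :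
    q = q' ∧ v = v' ∧ n = n' := inst_inj h

/-- the forced marks are there -/
theorem mark_of_Fm (B : Oracle) {e : ℕ} {k : Bool} {q : List Bool} {n : ℕ}
    (h : Fm e (g e) (b e) (a e q) (Fi a g b B) k q n) :
    Mark (Rb b) e k q n (Fi a g b B) := by
  intro t ht
  refine par_syn (X := fun v => B (cod (Rb b) e (k :: q) v n)) ht (fun v _ hne => ?_) ?_
  · refine Fi_neg a g b B e _ ?_
    rintro ⟨k', q', n', heq, _⟩
    obtain ⟨h1, h2, h3⟩ := ins_inj heq
    rw [List.cons.injEq] at h1
    obtain ⟨rfl, rfl⟩ := h1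
    subst h3
    exact hne h2
  · exact Fi_pos a g b B e _ ⟨k, q, n, rfl, h⟩

/-- the other marks come from `B` -/
theorem mark_of_not_Fm (B : Oracle) {e : ℕ} {k : Bool} {q : List Bool} {n : ℕ}
    (h : ¬ Fm e (g e) (b e) (a e q) (Fi a g b B) k q n)
    (hm : Mark (Rb b) e k q n (Fi a g b B)) : Mark (Rb b) e k q n B := by
  intro t ht
  rw [← hm t ht]
  refine (par_congr fun v _ => ?_).symm
  refine Fi_neg a g b B e _ ?_
  rintro ⟨k', q', n', heq, h4⟩
  obtain ⟨h1, h2, h3⟩ := ins_inj heq
  rw [List.cons.injEq] at h1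
  obtain ⟨rfl, rfl⟩ := h1
  subst h3
  exact h h4

theorem snd_of_ok {B : Oracle} {e : ℕ} {G H : List (List Bool)} {x : List Bool}
    (hG : ∀ q ∈ G, ∀ n, Scale 1 e q n → Sn (g e) (b e) (Fi a g b B) q n)
    (hH : ∀ q, (∃ k n, Scale 1 e q n ∧ Mark (Rb b) e k q n B) → q ∈ H)
    (h : Ok e (Rb b) G H (Fi a g b B) x) :
    Sn (g e) (b e) (Fi a g b B) (xq x) (xl x).length := by
  classical
  obtain ⟨hS, h | ⟨hxH, ⟨m, hm, hmS, hact⟩, hw⟩⟩ := h
  · exact hG _ h _ hS
  · by_contra hn
    -- the activation is forced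
    have ham : m = a e (xq x) := by
      by_contra hne
      apply hxH
      apply hH
      refine ⟨false, m, hmS, mark_of_not_Fm B ?_ hact⟩
      rintro (⟨_, h1⟩ | ⟨h1, _⟩)
      · exact hne h1
      · exact Bool.false_ne_true h1
    subst ham
    apply hw
    have hex : ∃ n, a e (xq x) ≤ n ∧ Scale 1 e (xq x) n ∧
      ¬ Sn (g e) (b e) (Fi a g b B) (xq x) n := ⟨_, hm, hS, hn⟩
    obtain ⟨h1, h2, h3⟩ := Nat.find_spec hex
    refine ⟨Nat.find hex, Nat.find_min' hex ⟨hm, hS, hn⟩, h2, ?_⟩
    apply mark_of_Fm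
    refine Or.inr ⟨rfl, h1, h2, h3, fun n' h4 h5 h6 => ?_⟩
    by_contra h7
    exact Nat.find_min hex h4 ⟨h5, h6, h7⟩

/-- every algorithm with outputs in `L` is simulated -/
theorem key (B : Oracle) {e : ℕ} {L : Set (List Bool)} {G H : List (List Bool)}
    (ha : ∀ q, Scale 1 e q (a e q))
    (hG : ∀ q ∈ H, (∀ n, Scale 1 e q n → Sn (g e) (b e) (Fi a g b B) q n) → q ∈ G)
    (hH : ∀ q, (∃ k n, Scale 1 e q n ∧ Mark (Rb b) e k q n B) → q ∈ H)
    (hL : ∀ z, z ∈ L ↔ z ∈ g e (cut ((b e).eval z.length) (Fi a g b B))) (z₀ : List Bool)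
    (M : Alg) (F : List Bool → List Bool) (hF : ∀ w, M.out (Fi a g b B) w = some (F w))
    (hFL : ∀ w, F w ∈ L) :
    ∃ h : List Bool → List Bool, NPC.Poly h ∧
      ∀ w, pv e (Rb b) G H z₀ (Fi a g b B) (h w) = F w := by
  obtain ⟨ec, pc, hec⟩ := U_complete M.poly
  have hec' : IsCode ec M.D pc := hec
  obtain ⟨bb, hbb⟩ := M.next_length
  set q : List Bool := bits ec with hq
  set T : Polynomial ℕ := M.p + bb + pc.comp (2 * Polynomial.X + 1 + M.p) +
    Polynomial.C (a e q) with hT
  have hTe : ∀ n, T.eval n = M.p.eval n + bb.eval n + pc.eval (2 * n + 1 + M.p.eval n) +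
      a e q := by
    intro n
    simp [hT, Polynomial.eval_comp]
  set N : List Bool → ℕ := fun w => nxt (stp 1 e q) (T.eval w.length) with hN
  have hNT : ∀ w, T.eval w.length ≤ N w := fun w => le_nxt (stp_pos 1 e q) _
  have hsnd : ∀ n, Sn (g e) (b e) (Fi a g b B) q n := by
    intro n w' m z hz
    have h1 := run_of_sim hec' m [] hz
    have h2 := eq_of_run h1 (hF w')
    rw [← hL, h2]
    exact hFL w'
  refine ⟨fun w => pairBits q (pairBits w (List.replicate (N w) true)), ?_, fun w => ?_⟩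
  · have h1 : UPoly N := uPoly_nxt _ (UPoly.eval (UPoly.length NPC.Poly.id) T)
    exact poly_pairBits (NPC.Poly.const q) (poly_pairBits NPC.Poly.id (poly_rep h1))
  · have e1 : xq (pairBits q (pairBits w (List.replicate (N w) true))) = q := by
      unfold xq
      rw [unpair_pairBits]
    have e2 : xw (pairBits q (pairBits w (List.replicate (N w) true))) = w := by
      unfold xw
      rw [unpair_pairBits, unpair_pairBits]
    have e3 : (xl (pairBits q (pairBits w (List.replicate (N w) true)))).length = N w := by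
      unfold xl
      rw [unpair_pairBits, unpair_pairBits, List.length_replicate]
    have e4 : N w ≤ (pairBits q (pairBits w (List.replicate (N w) true))).length := by
      rw [Pool.Agent.H620R2.Gauge.length_pairBits, Pool.Agent.H620R2.Gauge.length_pairBits,
        List.length_replicate]
      omega
    have hS : Scale 1 e q (N w) := scale_nxt _ _ _ _
    have h3 := hNT w
    rw [hTe] at h3
    have hok : Ok e (Rb b) G H (Fi a g b B)
        (pairBits q (pairBits w (List.replicate (N w) true))) := by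
      unfold Ok
      rw [e1, e3]
      refine ⟨hS, ?_⟩
      by_cases hqH : q ∈ H
      · exact Or.inl (hG q hqH fun n _ => hsnd n)
      · refine Or.inr ⟨hqH, ⟨a e q, by omega, ha q, mark_of_Fm B (Or.inl ⟨rfl, rfl⟩)⟩, ?_⟩
        rintro ⟨m, _, hm, hw⟩
        apply hqH
        apply hH
        refine ⟨true, m, hm, mark_of_not_Fm B ?_ hw⟩
        rintro (⟨h1, _⟩ | ⟨_, _, _, h1, _⟩)
        · exact Bool.false_ne_true h1.symm
        · exact h1 (hsnd m)
    unfold pv
    rw [if_pos hok, e1, e2, e3]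
    have h4 : sim (Fi a g b B) q w (N w) (M.p.eval w.length) [] = some (F w) :=
      sim_of_run hec' hbb (by omega) (by omega) (by omega) _ [] (by simp) (hF w)
    have h5 := sim_mono _ ((pairBits q (pairBits w (List.replicate (N w) true))).length + 2) []
      (by omega) h4
    rw [h5, Option.getD_some]

theorem opt (ha : ∀ e q, Scale 1 e q (a e q))
    (B : Oracle) (hB : ∀ e : ℕ, {q : List Bool | ∃ k n, Scale 1 e q n ∧
      Mark (Rb b) e k q n B}.Finite) (e : ℕ)
    (L : Set (List Bool)) (hne : L.Nonempty)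
    (hmem : ∀ z, z ∈ L ↔ z ∈ g e (cut ((b e).eval z.length) (Fi a g b B))) :
    ∃ P, IsPOptimal (Fi a g b B) L P := by
  classical
  obtain ⟨z₀, hz₀⟩ := hne
  set H : List (List Bool) := (hB e).toFinset.toList with hHdef
  set G : List (List Bool) := ((hB e).toFinset.filter (fun q =>
    ∀ n, Scale 1 e q n → Sn (g e) (b e) (Fi a g b B) q n)).toList with hGdef
  have hG1 : ∀ q ∈ G, ∀ n, Scale 1 e q n → Sn (g e) (b e) (Fi a g b B) q n := by
    intro q hq
    rw [hGdef, Finset.mem_toList, Finset.mem_filter] at hq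
    exact hq.2
  have hG2 : ∀ q ∈ H, (∀ n, Scale 1 e q n → Sn (g e) (b e) (Fi a g b B) q n) → q ∈ G := by
    intro q h1 h2
    rw [hHdef, Finset.mem_toList] at h1
    rw [hGdef, Finset.mem_toList, Finset.mem_filter]
    exact ⟨h1, h2⟩
  have hH : ∀ q, (∃ k n, Scale 1 e q n ∧ Mark (Rb b) e k q n B) → q ∈ H := by
    intro q h1
    rw [hHdef, Finset.mem_toList, Set.Finite.mem_toFinset]
    exact h1
  have hk := fun (M : Alg) (F : List Bool → List Bool) => key B (ha e) hG2 hH hmem z₀ M F
  refine ⟨pv e (Rb b) G H z₀ (Fi a g b B), ⟨isFP_pv _ _ _ _ _ _, ?_⟩, ?_⟩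
  · apply Set.Subset.antisymm
    · rintro _ ⟨x, rfl⟩
      unfold pv
      split_ifs with h
      · rcases hs : sim (Fi a g b B) (xq x) (xw x) (xl x).length (x.length + 2) [] with _ | z
        · simpa using hz₀
        · rw [Option.getD_some]
          exact (hmem z).2 (snd_of_ok hG1 hH h _ _ _ hs)
      · exact hz₀
    · intro z hz
      obtain ⟨Mz, hMz⟩ := IsFP.of_poly (A := Fi a g b B) (F := fun _ => z) (NPC.Poly.const z)
      obtain ⟨h, _, h2⟩ := hk Mz (fun _ => z) hMz fun _ => hz
      exact ⟨_, h2 []⟩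
  · rintro Q ⟨⟨MQ, hMQ⟩, hQ⟩
    obtain ⟨h, h1, h2⟩ := hk MQ Q hMQ fun w => by
      rw [← hQ]
      exact ⟨w, rfl⟩
    exact ⟨h, IsFP.of_poly h1, h2⟩

end Pool.Agent.J4H65.OF
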