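import Pool.Agent.J4H65.OF.Mark

/-!
# The proof system
-/

set_option autoImplicit false

namespace Pool.Agent.J4H65.OF

open Pool.Agent.NPC Pool.Agent.H620R2.Gauge Pool.Agent.H620R2.Gauge.CC Pool.Agent.H660R2.NX
  Pool.Agent.J4H65.OP

/-- the numbers of the code strings -/
def prs (e : ℕ) (x : List Bool) : List (ℕ × ℕ) :=
  (scs 1 e x).flatMap (fun m =>
    (List.range (min (2 ^ wd (xq x) m) (xl x).length)).map (fun v => (v, m)))

/-- the code strings -/
def cds (R : ℕ → Polynomial ℕ) (e : ℕ) (k : Bool) (x : List Bool) (p : ℕ × ℕ) : List Bool :=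
  cod R e (k :: xq x) (min p.1 (xl x).length) (min p.2 (xl x).length)

/-- the number of the answers which count for a parity -/
def cnt (e : ℕ) (x ans : List Bool) (m t : ℕ) : ℕ :=
  (((prs e x).zip ans).filter (fun p => decide (p.1.2 = m) &&
    (tb p.1.1 (min t (wd (xq x) m)) && p.2))).length

/-- evaluation of the answers -/
def wev (e : ℕ) (x ans : List Bool) : Bool :=
  (scs 1 e x).any (fun m => (List.range (wd (xq x) m)).all (fun t =>
    decide (cnt e x ans m t % 2 = 1)))

theorem poly_tb {α : Type} [TEnc α] {v t : α → ℕ} (hv : NPC.Poly v) (ht : UPoly t) :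
    NPC.Poly (fun a => tb (v a) (t a)) := by
  unfold tb
  exact Poly.dec_eq (Poly.mod (Poly.div hv (poly_two_pow ht)) (NPC.Poly.const 2))
    (NPC.Poly.const 1)

theorem poly_prs (e : ℕ) : NPC.Poly (prs e) := by
  unfold prs
  refine NPC.Poly.flatMap (F := fun x m =>
    (List.range (min (2 ^ wd (xq x) m) (xl x).length)).map (fun v => (v, m))) (poly_scs 1 e) ?_
  have hl : UPoly (fun p : List Bool × ℕ => (xl p.1).length) :=
    UPoly.length (poly_xl.comp (NPC.Poly.fst NPC.Poly.id))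
  have h0 : UPoly (fun p : List Bool × ℕ => wd (xq p.1) p.2) :=
    uPoly_wd (poly_xq.comp (NPC.Poly.fst NPC.Poly.id)) (NPC.Poly.snd NPC.Poly.id)
  have h1 : UPoly (fun p : List Bool × ℕ => min (2 ^ wd (xq p.1) p.2) (xl p.1).length) :=
    UPoly.of_le (Poly.min (poly_two_pow h0) hl.toPoly) hl fun a => min_le_right _ _
  exact NPC.Poly.map (F := fun (p : List Bool × ℕ) l => (l, p.2)) h1.range
    (NPC.Poly.pair (NPC.Poly.snd NPC.Poly.id) (NPC.Poly.snd (NPC.Poly.fst NPC.Poly.id)))

theorem poly_cds (R : ℕ → Polynomial ℕ) (e : ℕ) (k : Bool) :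
    NPC.Poly (fun a : List Bool × (ℕ × ℕ) => cds R e k a.1 a.2) := by
  unfold cds
  have hq : NPC.Poly (fun a : List Bool × (ℕ × ℕ) => k :: xq a.1) :=
    NPC.Poly.cons (NPC.Poly.const k) (poly_xq.comp (NPC.Poly.fst NPC.Poly.id))
  have hl : UPoly (fun a : List Bool × (ℕ × ℕ) => (xl a.1).length) :=
    UPoly.length (poly_xl.comp (NPC.Poly.fst NPC.Poly.id))
  have hp : NPC.Poly (fun a : List Bool × (ℕ × ℕ) => a.2) := NPC.Poly.snd NPC.Poly.id
  have h1 : UPoly (fun a : List Bool × (ℕ × ℕ) => min a.2.2 (xl a.1).length) :=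
    UPoly.of_le (Poly.min (NPC.Poly.snd hp) hl.toPoly) hl fun a => min_le_right _ _
  have h2 : UPoly (fun a : List Bool × (ℕ × ℕ) => min a.2.1 (xl a.1).length) :=
    UPoly.of_le (Poly.min (NPC.Poly.fst hp) hl.toPoly) hl fun a => min_le_right _ _
  exact poly_cod R e hq h2 h1

theorem poly_cnt (e : ℕ) :
    NPC.Poly (fun a : ((List Bool × List Bool) × ℕ) × ℕ => cnt e a.1.1.1 a.1.1.2 a.1.2 a.2) := by
  unfold cnt
  have hx : NPC.Poly (fun a : ((List Bool × List Bool) × ℕ) × ℕ => a.1.1.1) :=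
    NPC.Poly.fst (NPC.Poly.fst (NPC.Poly.fst NPC.Poly.id))
  have hy : NPC.Poly (fun a : ((List Bool × List Bool) × ℕ) × ℕ => a.1.1.2) :=
    NPC.Poly.snd (NPC.Poly.fst (NPC.Poly.fst NPC.Poly.id))
  have hm : NPC.Poly (fun a : ((List Bool × List Bool) × ℕ) × ℕ => a.1.2) :=
    NPC.Poly.snd (NPC.Poly.fst NPC.Poly.id)
  have ht : NPC.Poly (fun a : ((List Bool × List Bool) × ℕ) × ℕ => a.2) :=
    NPC.Poly.snd NPC.Poly.id
  have hw : UPoly (fun a : ((List Bool × List Bool) × ℕ) × ℕ => wd (xq a.1.1.1) a.1.2) :=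
    uPoly_wd (poly_xq.comp hx) hm
  have hu : UPoly (fun a : ((List Bool × List Bool) × ℕ) × ℕ =>
      min a.2 (wd (xq a.1.1.1) a.1.2)) :=
    UPoly.of_le (Poly.min ht hw.toPoly) hw fun a => min_le_right _ _
  refine NPC.Poly.length (NPC.Poly.filter
    (l := fun a : ((List Bool × List Bool) × ℕ) × ℕ => (prs e a.1.1.1).zip a.1.1.2)
    (p := fun (a : ((List Bool × List Bool) × ℕ) × ℕ) (p : (ℕ × ℕ) × Bool) =>
      decide (p.1.2 = a.1.2) && (tb p.1.1 (min a.2 (wd (xq a.1.1.1) a.1.2)) && p.2))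
    (NPC.Poly.zip ((poly_prs e).comp hx) hy) ?_)
  have e1 : NPC.Poly (fun b : (((List Bool × List Bool) × ℕ) × ℕ) × ((ℕ × ℕ) × Bool) =>
      b.2.1.2) := NPC.Poly.snd (NPC.Poly.fst (NPC.Poly.snd NPC.Poly.id))
  have e2 : NPC.Poly (fun b : (((List Bool × List Bool) × ℕ) × ℕ) × ((ℕ × ℕ) × Bool) =>
      b.2.1.1) := NPC.Poly.fst (NPC.Poly.fst (NPC.Poly.snd NPC.Poly.id))
  have e3 : NPC.Poly (fun b : (((List Bool × List Bool) × ℕ) × ℕ) × ((ℕ × ℕ) × Bool) =>
      b.2.2) := NPC.Poly.snd (NPC.Poly.snd NPC.Poly.id)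
  exact NPC.Poly.and (Poly.dec_eq e1 (hm.comp (NPC.Poly.fst NPC.Poly.id)))
    (NPC.Poly.and (poly_tb e2 (hu.comp (NPC.Poly.fst NPC.Poly.id))) e3)

theorem poly_wev (e : ℕ) :
    NPC.Poly (fun a : List Bool × List Bool => wev e a.1 a.2) := by
  unfold wev
  have h1 : NPC.Poly (fun a : List Bool × List Bool => scs 1 e a.1) :=
    (poly_scs 1 e).comp (NPC.Poly.fst NPC.Poly.id)
  refine NPC.Poly.any (p := fun (a : List Bool × List Bool) m =>
    (List.range (wd (xq a.1) m)).all (fun t => decide (cnt e a.1 a.2 m t % 2 = 1))) h1 ?_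
  have hw : UPoly (fun b : (List Bool × List Bool) × ℕ => wd (xq b.1.1) b.2) :=
    uPoly_wd (poly_xq.comp (NPC.Poly.fst (NPC.Poly.fst NPC.Poly.id))) (NPC.Poly.snd NPC.Poly.id)
  refine NPC.Poly.all (l := fun b : (List Bool × List Bool) × ℕ => List.range (wd (xq b.1.1) b.2))
    (p := fun (b : (List Bool × List Bool) × ℕ) t =>
      decide (cnt e b.1.1 b.1.2 b.2 t % 2 = 1)) hw.range ?_
  exact Poly.dec_eq (Poly.mod (poly_cnt e) (NPC.Poly.const 2)) (NPC.Poly.const 1)

theorem nodup_scs (e : ℕ) (x : List Bool) : (scs 1 e x).Nodup := by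
  unfold scs
  exact List.Nodup.filter _ List.nodup_range

theorem cnt_eq (e : ℕ) (R : ℕ → Polynomial ℕ) (k : Bool) (x : List Bool) (A : Oracle) {m t : ℕ}
    (hm : m ∈ scs 1 e x) (ht : t < wd (xq x) m) :
    cnt e x (((prs e x).map (cds R e k x)).map A) m t =
      (List.range (2 ^ wd (xq x) m)).countP
        (fun v => tb v t && A (cod R e (k :: xq x) v m)) := by
  have h1 : (prs e x).zip (((prs e x).map (cds R e k x)).map A) =
      (prs e x).map (fun p => (p, A (cds R e k x p))) := by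
    rw [List.map_map]
    have h0 := List.zip_map' (f := fun p : ℕ × ℕ => p) (g := fun p => A (cds R e k x p))
      (l := prs e x)
    rw [List.map_id'] at h0
    exact h0
  obtain ⟨hm1, hm2⟩ := mem_scs.1 hm
  unfold cnt
  rw [h1, ← List.countP_eq_length_filter, List.countP_map]
  unfold prs
  rw [List.countP_flatMap, List.sum_map_eq_nsmul_single m]
  · rw [List.count_eq_one_of_mem (nodup_scs e x) hm, one_smul, Function.comp_apply,
      List.countP_map, min_eq_left ((two_pow_wd_le hm2).trans hm1)]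
    refine List.countP_congr fun v hv => ?_
    rw [List.mem_range] at hv
    have h2 : v ≤ (xl x).length := hv.le.trans ((two_pow_wd_le hm2).trans hm1)
    simp only [Function.comp_apply, decide_true, Bool.true_and]
    unfold cds
    simp only
    rw [min_eq_left ht.le, min_eq_left h2, min_eq_left hm1]
  · intro m' hne _
    rw [Function.comp_apply, List.countP_map, List.countP_eq_zero]
    intro v _
    simp [hne]

theorem wev_iff (e : ℕ) (R : ℕ → Polynomial ℕ) (k : Bool) (x : List Bool) (A : Oracle) :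
    wev e x (((prs e x).map (cds R e k x)).map A) = true ↔
      ∃ m ≤ (xl x).length, Scale 1 e (xq x) m ∧ Mark R e k (xq x) m A := by
  unfold wev Mark
  simp only [List.any_eq_true, List.all_eq_true, decide_eq_true_eq, List.mem_range]
  constructor
  · rintro ⟨m, hm, h⟩
    obtain ⟨hm1, hm2⟩ := mem_scs.1 hm
    refine ⟨m, hm1, hm2, fun t ht => ?_⟩
    rw [par_eq_one_iff, ← cnt_eq e R k x A hm ht]
    exact h t ht
  · rintro ⟨m, hm1, hm2, h⟩
    have hm := mem_scs.2 ⟨hm1, hm2⟩
    refine ⟨m, hm, fun t ht => ?_⟩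
    rw [cnt_eq e R k x A hm ht, ← par_eq_one_iff]
    exact h t ht

/-! ### The proof system -/

/-- the program and the clock are admitted -/
def Ok (e : ℕ) (R : ℕ → Polynomial ℕ) (G H : List (List Bool)) (A : Oracle) (x : List Bool) :
    Prop :=
  Scale 1 e (xq x) (xl x).length ∧
    (xq x ∈ G ∨ (xq x ∉ H ∧
      (∃ m ≤ (xl x).length, Scale 1 e (xq x) m ∧ Mark R e false (xq x) m A) ∧
      ¬ ∃ m ≤ (xl x).length, Scale 1 e (xq x) m ∧ Mark R e true (xq x) m A))

open Classical in
/-- the values of the proof system -/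
noncomputable def pv (e : ℕ) (R : ℕ → Polynomial ℕ) (G H : List (List Bool)) (z₀ : List Bool)
    (A : Oracle) (x : List Bool) : List Bool :=
  if Ok e R G H A x then
    (sim A (xq x) (xw x) (xl x).length (x.length + 2) []).getD z₀ else z₀

/-- the last step -/
def fin (e : ℕ) (G H : List (List Bool)) (z₀ : List Bool)
    (p : List Bool × List Bool × List Bool) : List Bool :=
  if (scB 1 e (xq p.1) (xl p.1).length && (decide (xq p.1 ∈ G) ||
    (!(decide (xq p.1 ∈ H)) && decide (p.2.1 = [true, false]))) &&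
    !(decide (p.2.2 = []))) = true then p.2.2.tail else z₀

theorem poly_fin (e : ℕ) (G H : List (List Bool)) (z₀ : List Bool) :
    NPC.Poly (fin e G H z₀) := by
  have hx : NPC.Poly (fun p : List Bool × List Bool × List Bool => p.1) :=
    NPC.Poly.fst NPC.Poly.id
  have h2 : NPC.Poly (fun p : List Bool × List Bool × List Bool => p.2.1) :=
    NPC.Poly.fst (NPC.Poly.snd NPC.Poly.id)
  have h3 : NPC.Poly (fun p : List Bool × List Bool × List Bool => p.2.2) :=
    NPC.Poly.snd (NPC.Poly.snd NPC.Poly.id)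
  unfold fin
  refine NPC.Poly.ite (Poly.dec_eq ?_ (NPC.Poly.const true)) (NPC.Poly.tail h3)
    (NPC.Poly.const z₀)
  exact NPC.Poly.and (NPC.Poly.and
    (poly_scB 1 e (poly_xq.comp hx) (NPC.Poly.length (poly_xl.comp hx)))
    (NPC.Poly.or (Poly.dec_mem (poly_xq.comp hx) (NPC.Poly.const G))
      (NPC.Poly.and (NPC.Poly.not (Poly.dec_mem (poly_xq.comp hx) (NPC.Poly.const H)))
        (Poly.dec_eq h2 (NPC.Poly.const [true, false])))))
    (NPC.Poly.not (Poly.dec_eq h3 (NPC.Poly.const [])))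

theorem isFP_wev (e : ℕ) (R : ℕ → Polynomial ℕ) (k : Bool) (A : Oracle) :
    IsFP A (fun x => [wev e x (((prs e x).map (cds R e k x)).map A)]) := by
  refine IsFP.tt (Q := fun x => (prs e x).map (cds R e k x))
    (H := fun p => [wev e p.1 p.2]) ?_ ?_
  · exact NPC.Poly.map (F := fun x p => cds R e k x p) (poly_prs e) (poly_cds R e k)
  · exact NPC.Poly.cons (poly_wev e) (NPC.Poly.const [])

theorem isFP_pv (e : ℕ) (R : ℕ → Polynomial ℕ) (G H : List (List Bool)) (z₀ : List Bool)
    (A : Oracle) : IsFP A (pv e R G H z₀ A) := by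
  have h1 := IsFP.seq (φ := fun p => p.1) (ψ := fun p => p.2.1 ++ p.2.2)
    (isFP_wev e R false A) (isFP_wev e R true A) (NPC.Poly.fst NPC.Poly.id)
    (NPC.Poly.append (NPC.Poly.fst (NPC.Poly.snd NPC.Poly.id))
      (NPC.Poly.snd (NPC.Poly.snd NPC.Poly.id)))
  have h2 := IsFP.seq (φ := fun p => p.1) (ψ := fin e G H z₀) h1 (isFP_so A)
    (NPC.Poly.fst NPC.Poly.id) (poly_fin e G H z₀)
  obtain ⟨M, hM⟩ := h2
  refine ⟨M, fun x => ?_⟩
  rw [hM x]
  congr 1
  unfold fin pv so
  simp only [List.cons_append, List.nil_append]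
  have h3 : (scB 1 e (xq x) (xl x).length && (decide (xq x ∈ G) ||
      (!(decide (xq x ∈ H)) && decide ([wev e x (((prs e x).map (cds R e false x)).map A),
        wev e x (((prs e x).map (cds R e true x)).map A)] = [true, false])))) = true ↔
      Ok e R G H A x := by
    rw [Bool.and_eq_true, Bool.or_eq_true, Bool.and_eq_true, Bool.not_eq_true',
      decide_eq_true_eq, decide_eq_true_eq, decide_eq_false_iff_not, scB_iff]
    unfold Ok
    rw [← wev_iff e R false x A, ← wev_iff e R true x A]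
    simp only [List.cons.injEq, and_true, Bool.not_eq_true]
  by_cases hO : Ok e R G H A x
  · rw [if_pos hO, h3.2 hO]
    rcases sim A (xq x) (xw x) (xl x).length (x.length + 2) [] with _ | z
    · simp
    · simp
  · rw [if_neg hO]
    have h4 : (scB 1 e (xq x) (xl x).length && (decide (xq x ∈ G) ||
      (!(decide (xq x ∈ H)) && decide ([wev e x (((prs e x).map (cds R e false x)).map A),
        wev e x (((prs e x).map (cds R e true x)).map A)] = [true, false])))) = false := by
      rw [← Bool.not_eq_true, h3]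
      exact hO
    rw [h4]
    simp

end Pool.Agent.J4H65.OF
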