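import Pool.Agent.H620R2.Gauge2.Base

/-!
# Super-tally sets
-/

set_option autoImplicit false

namespace Pool.Agent.J4H65.OF

open Pool.Agent.H620R2.Gauge

/-- the string of `2 ^ (2 ^ n)` ones -/
def sup (n : ℕ) : List Bool := List.replicate (2 ^ (2 ^ n)) true

/-- the test language -/
def stL (A : Oracle) : Set (List Bool) := {x | x ∈ hitLang A ∧ ∃ n, x = sup n}

end Pool.Agent.J4H65.OF
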