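import Pool.Agent.H620R2.Gauge2.CoverN
import Pool.Agent.J4H65.OP.Count

/-!
# Super-tally sets: one test at each of many scales
-/

set_option autoImplicit false

namespace Pool.Agent.J4H65.OF

open Pool.Agent.NPC Pool.Agent.H620R2.Gauge Finset H568R2 Pool.Agent.H676

section

variable {I : Type*} [Fintype I] [DecidableEq I]

theorem seq_block (T : ℕ) (B : ℕ → Finset I) (φ : ℕ → (I → Bool) → ℝ) (u : ℝ)
    (h0 : ∀ i < T, ∀ a, 0 ≤ φ i a)
    (hdep : ∀ i i', i < i' → i' < T → ∀ a b, φ i (mix (B i') b a) = φ i a)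
    (hone : ∀ i < T, ∀ a, Ex unif (fun b => φ i (mix (B i) b a)) ≤ u) :
    Ex unif (fun a => ∏ i ∈ range T, φ i a) ≤ u ^ T := by
  induction T with
  | zero =>
    simp only [Finset.range_zero, Finset.prod_empty, pow_zero]
    rw [Ex_const unif_sum]
  | succ t ih =>
    have ih' := ih (fun i hi => h0 i (by omega)) (fun i i' h1 h2 => hdep i i' h1 (by omega))
      (fun i hi => hone i (by omega))
    have hu : 0 ≤ u := by
      refine le_trans ?_ (hone t (by omega) (fun _ => false))
      exact Ex_nonneg unif_nonneg fun b => h0 t (by omega) _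
    rw [← Ex_mix (B t)]
    calc Ex unif (fun a => Ex unif (fun b => ∏ i ∈ range (t + 1), φ i (mix (B t) b a)))
        ≤ Ex unif (fun a => u * ∏ i ∈ range t, φ i a) := by
          refine Ex_mono unif_nonneg fun a => ?_
          have e1 : ∀ b : I → Bool, ∏ i ∈ range (t + 1), φ i (mix (B t) b a) =
              (∏ i ∈ range t, φ i a) * φ t (mix (B t) b a) := by
            intro b
            rw [Finset.prod_range_succ]
            congr 1
            refine Finset.prod_congr rfl fun i hi => ?_
            exact hdep i t (Finset.mem_range.1 hi) (by omega) a b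
          rw [funext e1, Ex_smul, mul_comm u]
          refine mul_le_mul_of_nonneg_left (hone t (by omega) a) ?_
          exact Finset.prod_nonneg fun i hi => h0 i (by
            have := Finset.mem_range.1 hi
            omega) a
      _ = u * Ex unif (fun a => ∏ i ∈ range t, φ i a) := Ex_smul _ _ _
      _ ≤ u * u ^ t := mul_le_mul_of_nonneg_left ih' hu
      _ = u ^ (t + 1) := by ring

open Classical in
/-- one test -/
theorem one_test {J : Type*} [Fintype J] {n p : ℕ} (hn : 1 ≤ n) (hJ : Fintype.card J = 2 ^ n)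
    (hp : 2 * p ≤ 2 ^ n) (W : J → Finset I) (hW : ∀ j, (W j).card = n)
    (hd : ∀ j j', j ≠ j' → Disjoint (W j) (W j')) (G : (I → Bool) → Prop)
    (hG : ∀ a, G a → ∃ A : Finset I, A.card ≤ p ∧ ∀ y : I → Bool, (∀ i ∈ A, y i = a i) → G y) :
    Ex unif (fun a : I → Bool => if (G a ↔ ¬ HitF W a) then (1 : ℝ) else 0) ≤ 7 / 8 := by
  have h1 := single_block hJ hp W hW hd G hG
  have h2 := V4.ex_blocks (κ := Unit) (fun _ => W) n hJ (fun _ => hW)
    (fun _ j _ j' hne => hd j j' fun h => hne (by rw [h])) (univ : Finset Unit)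
  simp only [Finset.univ_unique, Finset.prod_singleton, Finset.card_singleton, pow_one] at h2
  have hq := V4.quarter hn
  have h3 : Ex unif (fun a : I → Bool => if (G a ↔ ¬ HitF W a) then (1 : ℝ) else 0) ≤
      Ex unif (fun a : I → Bool => (1 - 1 / 2 * (if ¬ HitF W a then (1 : ℝ) else 0)) +
        ((1 / 2) * (if ¬ HitF W a ∧ G a then (1 : ℝ) else 0) +
        (-1) * (if HitF W a ∧ G a then (1 : ℝ) else 0))) := by
    refine Ex_mono unif_nonneg fun a => ?_
    by_cases hh : HitF W a <;> by_cases hg : G a <;> simp [hh, hg] <;> norm_num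
  refine h3.trans ?_
  rw [Ex_add, Ex_add, Ex_smul, Ex_smul, h2]
  linarith

end

end Pool.Agent.J4H65.OF
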