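import Pool.Agent.J4H65.OF.Tal1
import Pool.Agent.J4H65.OF.TDefs

/-!
# The event that a nondeterministic algorithm decides the complement of the test language
-/

set_option autoImplicit false

namespace Pool.Agent.J4H65.OF

open Pool.Agent.NPC Pool.Agent.H620R2.Gauge Finset H568R2 Pool.Agent.H676

theorem length_sup (n : ℕ) : (sup n).length = 2 ^ (2 ^ n) := by
  unfold sup
  rw [List.length_replicate]

theorem hit_iff' {N : ℕ} {x : List Bool} (hN : 2 ^ (3 * x.length + 1) ≤ N + 1) (A : Oracle) :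
    HitF (fun j : Fin (2 ^ x.length) => witF N x j.val) (pre N A) ↔ x ∈ hitLang A := by
  unfold HitF hitLang
  rw [Set.mem_ofPred_eq]
  constructor
  · rintro ⟨j, hj⟩
    refine ⟨j.val, j.2, fun i hi => ?_⟩
    have hlt : idx (wit x j.val i) < N := by
      have h1 := idx_lt (wit x j.val i)
      rw [length_wit] at h1
      have h2 : 2 ^ (2 * x.length + i + 1) ≤ 2 ^ (3 * x.length + 1) :=
        Nat.pow_le_pow_right (by norm_num) (by omega)
      omega
    have h3 := hj ⟨idx (wit x j.val i), hlt⟩ (by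
      show _ ∈ witF N x j.val
      unfold witF
      rw [Finset.mem_filter]
      exact ⟨Finset.mem_univ _, i, hi, str_idx _⟩)
    unfold pre at h3
    simp only at h3
    rwa [str_idx] at h3
  · rintro ⟨j, hj, h⟩
    refine ⟨⟨j, hj⟩, fun e he => ?_⟩
    have he' : e ∈ witF N x j := he
    unfold witF at he'
    rw [Finset.mem_filter] at he'
    obtain ⟨_, i, hi, hei⟩ := he'
    unfold pre
    rw [hei]
    exact h i hi

open Classical in
theorem QF_congr {M : Alg} {qb : Polynomial ℕ} (hqb : ∀ (A : Oracle) (x : List Bool),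
    ∃ Q : Finset (List Bool), Q.card ≤ M.p.eval x.length ∧
      (∀ q ∈ Q, q.length ≤ qb.eval x.length) ∧
      ∀ A' : Oracle, (∀ q ∈ Q, A' q = A q) → M.out A' x = M.out A x)
    {N m ℓ : ℕ} {a a' : Fin N → Bool}
    (h : ∀ e : Fin N, (str e).length ≤ qb.eval ℓ → a' e = a e) {y : List Bool}
    (hy : y.length + (2 * m + 1) ≤ ℓ) :
    QF m (leaf M N) 1 true y a' = QF m (leaf M N) 1 true y a := by
  have key : ∀ z : List Bool, z.length ≤ ℓ → leaf M N z a' = leaf M N z a := by
    intro z hz
    obtain ⟨Q, _, hQ1, hQ2⟩ := hqb (orc N a) z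
    unfold leaf
    rw [hQ2 (orc N a') fun q hq => ?_]
    unfold orc
    split_ifs with h1
    · apply h
      show (str (idx q)).length ≤ _
      rw [str_idx]
      exact (hQ1 q hq).trans (eval_mono _ hz)
    · rfl
  show decide _ = decide _
  rw [decide_eq_decide]
  refine exists_congr fun w => and_congr_right fun hw => ?_
  show leaf M N (pairBits w y) a' = true ↔ leaf M N (pairBits w y) a = true
  rw [key _ (by rw [length_pairBits]; omega)]

/-- the bounds which the step of the scales has to satisfy -/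
theorem choose_s (P : Polynomial ℕ) : ∃ s : ℕ, 0 < s ∧ ∀ k : ℕ,
    P.eval (2 ^ (2 ^ (s * (k + 1)))) < 2 ^ (2 ^ (s * (k + 2))) ∧
      2 * P.eval (2 ^ (2 ^ (s * (k + 1)))) ≤ 2 ^ (2 ^ (2 ^ (s * (k + 1)))) := by
  set K := P.eval 1 with hK
  set d := P.natDegree with hd
  obtain ⟨n₀, hn₀⟩ := Filter.eventually_atTop.1 (Y_exp K 1 d)
  refine ⟨K + d + n₀ + 1, by omega, fun k => ?_⟩
  set s := K + d + n₀ + 1 with hs
  set n := 2 ^ (2 ^ (s * (k + 1))) with hn
  have hn2 : 2 ≤ n := by
    calc 2 = 2 ^ 1 := by norm_num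
      _ ≤ n := Nat.pow_le_pow_right (by norm_num) Nat.one_le_two_pow
  have hsn : s ≤ n := by
    calc s ≤ s * (k + 1) := Nat.le_mul_of_pos_right _ (by omega)
      _ ≤ 2 ^ (s * (k + 1)) := Nat.lt_two_pow_self.le
      _ ≤ n := Nat.lt_two_pow_self.le
  have h1 : P.eval n ≤ K * n ^ d := Y_poly_le P n (by omega)
  constructor
  · have h2 : K < n ^ K := (Nat.lt_two_pow_self).trans_le (Nat.pow_le_pow_left hn2 K)
    have h3 : K * n ^ d < n ^ K * n ^ d := Nat.mul_lt_mul_of_pos_right h2 (by positivity)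
    have h4 : K + d ≤ 2 ^ s := by
      have : s < 2 ^ s := Nat.lt_two_pow_self
      omega
    calc P.eval n ≤ K * n ^ d := h1
      _ < n ^ K * n ^ d := h3
      _ = n ^ (K + d) := (pow_add _ _ _).symm
      _ ≤ n ^ (2 ^ s) := Nat.pow_le_pow_right (by omega) h4
      _ = 2 ^ (2 ^ (s * (k + 2))) := by
        rw [hn, ← pow_mul, ← pow_add]
        congr 2
  · have h2 := hn₀ n (by omega)
    have h3 : K * n ^ d ≤ K * (1 * (n + 1)) ^ d := by
      apply Nat.mul_le_mul_left
      apply Nat.pow_le_pow_left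
      omega
    calc 2 * P.eval n ≤ 2 * (K * n ^ d) := Nat.mul_le_mul_left _ h1
      _ ≤ 8 * (K * (1 * (n + 1)) ^ d) := by omega
      _ ≤ 2 ^ n := h2

/-- the inputs -/
def xk (s k : ℕ) : List Bool := sup (s * (k + 1))

theorem length_xk (s k : ℕ) : (xk s k).length = 2 ^ (2 ^ (s * (k + 1))) := length_sup _

/-- the witness sets -/
noncomputable def Wk (s N k : ℕ) (j : Fin (2 ^ (xk s k).length)) : Finset (Fin N) :=
  witF N (xk s k) j.val

/-- the event at one scale -/
def EvO (M : Alg) (p : Polynomial ℕ) (s N k : ℕ) (a : Fin N → Bool) : Prop :=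
  (QF (p.eval (xk s k).length) (leaf M N) 1 true (xk s k) a = true ↔ ¬ HitF (Wk s N k) a)

/-- the polynomial for the lengths of the strings -/
noncomputable def Lp (p : Polynomial ℕ) : Polynomial ℕ := Polynomial.X + (2 * p + 1)

theorem eval_Lp (p : Polynomial ℕ) (n : ℕ) : (Lp p).eval n = n + (2 * p.eval n + 1) := by
  simp [Lp]

/-- the polynomial for all bounds -/
noncomputable def Pp (M : Alg) (qb p : Polynomial ℕ) : Polynomial ℕ :=
  qb.comp (Lp p) + M.p.comp (Lp p) + 3 * Polynomial.X + 1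

theorem eval_Pp (M : Alg) (qb p : Polynomial ℕ) (n : ℕ) : (Pp M qb p).eval n =
    qb.eval ((Lp p).eval n) + M.p.eval ((Lp p).eval n) + 3 * n + 1 := by
  simp [Pp, Polynomial.eval_comp]

theorem mem_Wk {s N k : ℕ} {j : Fin (2 ^ (xk s k).length)} {e : Fin N} (h : e ∈ Wk s N k j) :
    2 * (xk s k).length ≤ (str e).length ∧ (str e).length < 3 * (xk s k).length := by
  unfold Wk witF at h
  rw [Finset.mem_filter] at h
  obtain ⟨_, i, hi, he⟩ := h
  rw [he, length_wit]
  omega

theorem lk_mono {s k k' : ℕ} (h : k ≤ k') : (xk s k).length ≤ (xk s k').length := by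
  rw [length_xk, length_xk]
  apply Nat.pow_le_pow_right (by norm_num)
  apply Nat.pow_le_pow_right (by norm_num)
  apply Nat.mul_le_mul_left
  omega

open Classical in
theorem ev_bound' {M : Alg} {qb p : Polynomial ℕ} (hqb : ∀ (A : Oracle) (x : List Bool),
    ∃ Q : Finset (List Bool), Q.card ≤ M.p.eval x.length ∧
      (∀ q ∈ Q, q.length ≤ qb.eval x.length) ∧
      ∀ A' : Oracle, (∀ q ∈ Q, A' q = A q) → M.out A' x = M.out A x)
    {s T N : ℕ} (hs : ∀ k : ℕ,
      (Pp M qb p).eval (2 ^ (2 ^ (s * (k + 1)))) < 2 ^ (2 ^ (s * (k + 2))) ∧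
      2 * (Pp M qb p).eval (2 ^ (2 ^ (s * (k + 1)))) ≤ 2 ^ (2 ^ (2 ^ (s * (k + 1)))))
    (hN : N = 2 ^ (2 ^ (2 ^ (s * (T + 1))))) :
    Ex unif (fun a : Fin N → Bool => if ∀ k < T, EvO M p s N k a then (1 : ℝ) else 0) ≤
      (7 / 8 : ℝ) ^ T := by
  set B : ℕ → Finset (Fin N) := fun k => univ.biUnion (fun j => Wk s N k j) with hB
  have hBm : ∀ {k : ℕ} {e : Fin N}, e ∈ B k → 2 * (xk s k).length ≤ (str e).length := by
    intro k e he
    rw [hB, Finset.mem_biUnion] at he
    obtain ⟨j, _, hj⟩ := he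
    exact (mem_Wk hj).1
  have hP : ∀ k, qb.eval ((Lp p).eval (xk s k).length) +
      M.p.eval ((Lp p).eval (xk s k).length) + 3 * (xk s k).length + 1 < (xk s (k + 1)).length := by
    intro k
    have h1 := (hs k).1
    rw [eval_Pp] at h1
    rw [length_xk, length_xk]
    exact h1
  have hP2 : ∀ k, 2 * M.p.eval ((Lp p).eval (xk s k).length) ≤ 2 ^ (xk s k).length := by
    intro k
    have h1 := (hs k).2
    rw [eval_Pp] at h1
    rw [length_xk]
    omega
  have hNk : ∀ k < T, 2 ^ (3 * (xk s k).length + 1) ≤ N + 1 := by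
    intro k hk
    have h1 := hP k
    have h2 : (xk s (k + 1)).length ≤ (xk s T).length := lk_mono (by omega)
    rw [hN]
    calc 2 ^ (3 * (xk s k).length + 1) ≤ 2 ^ (xk s T).length :=
          Nat.pow_le_pow_right (by norm_num) (by omega)
      _ = 2 ^ (2 ^ (2 ^ (s * (T + 1)))) := by rw [length_xk]
      _ ≤ _ := Nat.le_succ _
  have hmix : ∀ (k : ℕ) (a b : Fin N → Bool) (i : Fin N), i ∉ B k → mix (B k) b a i = a i := by
    intro k a b i hi
    simp [mix, hi]
  have hmix' : ∀ (k : ℕ) (a b : Fin N → Bool) (i : Fin N), i ∈ B k → mix (B k) b a i = b i := by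
    intro k a b i hi
    simp [mix, hi]
  have hy : ∀ k, (xk s k).length + (2 * p.eval (xk s k).length + 1) ≤
      (Lp p).eval (xk s k).length := fun k => by rw [eval_Lp]
  set φ : ℕ → (Fin N → Bool) → ℝ := fun k a => if EvO M p s N k a then (1 : ℝ) else 0 with hφ
  refine le_trans (Ex_mono unif_nonneg fun a => ?_)
    (seq_block T B φ (7 / 8) (fun k _ a => ?_) (fun i i' hi hi' a b => ?_) fun k hk a => ?_)
  · by_cases h : ∀ k < T, EvO M p s N k a
    · rw [if_pos h]
      refine le_of_eq (Finset.prod_eq_one fun k hk => ?_).symm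
      rw [hφ]
      simp only
      rw [if_pos (h k (Finset.mem_range.1 hk))]
    · rw [if_neg h]
      refine Finset.prod_nonneg fun k _ => ?_
      rw [hφ]
      simp only
      split_ifs <;> norm_num
  · rw [hφ]
    simp only
    split_ifs <;> norm_num
  · have h1 : (xk s (i + 1)).length ≤ (xk s i').length := lk_mono hi
    have h2 := hP i
    have e1 : QF (p.eval (xk s i).length) (leaf M N) 1 true (xk s i) (mix (B i') b a) =
        QF (p.eval (xk s i).length) (leaf M N) 1 true (xk s i) a := by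
      refine QF_congr hqb (fun e he => hmix i' a b e fun hB' => ?_) (hy i)
      have := hBm hB'
      omega
    have e2 : HitF (Wk s N i) (mix (B i') b a) ↔ HitF (Wk s N i) a := by
      refine hitF_congr _ _ _ fun j e he => hmix i' a b e fun hB' => ?_
      have h3 := hBm hB'
      have h4 := (mem_Wk he).2
      omega
    rw [hφ]
    simp only
    unfold EvO
    rw [e1, e2]
  · have e2 : ∀ b, HitF (Wk s N k) (mix (B k) b a) ↔ HitF (Wk s N k) b := by
      intro b
      refine hitF_congr _ _ _ fun j e he => hmix' k a b e ?_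
      rw [hB, Finset.mem_biUnion]
      exact ⟨j, Finset.mem_univ _, he⟩
    have h1 := one_test (n := (xk s k).length) (p := M.p.eval ((Lp p).eval (xk s k).length))
      (by rw [length_xk]; exact Nat.one_le_two_pow) (by simp) (hP2 k) (Wk s N k)
      (fun j => witF_card (hNk k hk) _) (fun j j' hne => witF_disj rfl j.2 j'.2 (by
        intro h
        rw [Prod.mk.injEq] at h
        exact hne (Fin.ext h.2)))
      (fun b => QF (p.eval (xk s k).length) (leaf M N) 1 true (xk s k) (mix (B k) b a) = true) (by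
        intro b hb
        have hc := cert_QF (t := M.p.eval ((Lp p).eval (xk s k).length))
          (ℓ := (Lp p).eval (xk s k).length) (F := leaf M N) (m := p.eval (xk s k).length)
          (fun y hy' => (dtr_out M N y).mono (eval_mono M.p hy')) (hy k)
        obtain ⟨A, hA, hA2⟩ := hc _ hb
        refine ⟨A, hA, fun y hy' => hA2 _ fun i hi => ?_⟩
        by_cases hiB : i ∈ B k
        · rw [hmix' k a y i hiB, hmix' k a b i hiB, hy' i hi]
        · rw [hmix k a y i hiB, hmix k a b i hiB])
    refine le_trans (le_of_eq ?_) h1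
    congr 1
    funext b
    rw [hφ]
    simp only
    unfold EvO
    rw [e2 b]
    congr!

end Pool.Agent.J4H65.OF
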